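import Pool.Agent.LibTet23.GDefs
import Pool.Agent.LibTet23.N1
import Pool.Agent.LibTet23.R2
import Pool.Agent.LibPol19.G12
import Pool.Agent.LibPol19.Q01

/-!
Cor47: a vertex `v` of a 3-polytope with exactly three neighbours `a, b, c` (no condition on the facets at `v`).
Basic facts (after LibTet23.C1, C2).
-/

set_option autoImplicit false

namespace Pool.Agent.LibCor47

open Finset Pool.Agent.LibPol19 Pool.Agent.LibTet88 Pool.Agent.LibTet23
open scoped Classical

/-- `v` has exactly the three neighbours `a, b, c` -/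
structure Sk (V : Finset (Ed 3)) (v a b c : Ed 3) : Prop where
  vert : IsVert V
  full : Full V
  vV : v ∈ V
  nb : nb V v = {a, b, c}
  ab : a ≠ b
  ac : a ≠ c
  bc : b ≠ c

theorem sk_mem {V : Finset (Ed 3)} {v a b c : Ed 3} (h : Sk V v a b c) :
    a ∈ V ∧ b ∈ V ∧ c ∈ V ∧ a ≠ v ∧ b ≠ v ∧ c ≠ v := by
  have ha : a ∈ LibPol19.nb V v := by rw [h.nb]; simp
  have hb : b ∈ LibPol19.nb V v := by rw [h.nb]; simp
  have hc : c ∈ LibPol19.nb V v := by rw [h.nb]; simp
  rw [mem_nb] at ha hb hc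
  exact ⟨ha.1, hb.1, hc.1, ha.2.1.symm, hb.2.1.symm, hc.2.1.symm⟩

theorem sk_rot {V : Finset (Ed 3)} {v a b c : Ed 3} (h : Sk V v a b c) : Sk V v b c a := by
  refine ⟨h.vert, h.full, h.vV, ?_, h.bc, h.ab.symm, h.ac.symm⟩
  rw [h.nb]
  ext x
  simp only [Finset.mem_insert, Finset.mem_singleton]
  tauto

theorem sk_fun {V : Finset (Ed 3)} {v a b c : Ed 3} (h : Sk V v a b c) (x y z : ℝ) :
    ∃ m : Ed 3 →ₗ[ℝ] ℝ, m (a - v) = x ∧ m (b - v) = y ∧ m (c - v) = z := by
  have hcard : (LibPol19.nb V v).card = 3 := by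
    rw [h.nb, Finset.card_insert_of_notMem, Finset.card_insert_of_notMem, Finset.card_singleton]
    · rw [Finset.mem_singleton]
      exact h.bc
    · rw [Finset.mem_insert, Finset.mem_singleton]
      rintro (h1 | h1)
      · exact h.ab h1
      · exact h.ac h1
  have ha : a ∈ LibPol19.nb V v := by rw [h.nb]; simp
  have hb : b ∈ LibPol19.nb V v := by rw [h.nb]; simp
  have hc : c ∈ LibPol19.nb V v := by rw [h.nb]; simp
  obtain ⟨m, hm⟩ := Q01_ext (simple_indep h.vert h.full h.vV hcard)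
    (fun u : {u // u ∈ LibPol19.nb V v} => if (u : Ed 3) = a then x else if (u : Ed 3) = b then y else z)
  refine ⟨m, ?_, ?_, ?_⟩
  · have h1 := hm ⟨a, ha⟩
    simpa using h1
  · have h1 := hm ⟨b, hb⟩
    simpa [h.ab.symm] using h1
  · have h1 := hm ⟨c, hc⟩
    simpa [h.ac.symm, h.bc.symm] using h1

theorem sk_cap {V : Finset (Ed 3)} {v a b c : Ed 3} (h : Sk V v a b c) :
    ∃ (m : Ed 3 →ₗ[ℝ] ℝ) (k : ℝ), m a = k ∧ m b = k ∧ m c = k ∧ k < m v ∧
      ∀ z ∈ V, z ≠ v → z ≠ a → z ≠ b → z ≠ c → m z < k := by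
  obtain ⟨m, ha, hb, hc⟩ := sk_fun h (-1) (-1) (-1)
  rw [map_sub] at ha hb hc
  refine ⟨m, m v - 1, by linarith, by linarith, by linarith, by linarith, ?_⟩
  intro z hz zv za zb zc
  refine out_fun h.vert h.vV (ℓ := m) (k := m v - 1) ?_ (by linarith) hz zv ?_
  · intro w hw
    rw [h.nb, Finset.mem_insert, Finset.mem_insert, Finset.mem_singleton] at hw
    rcases hw with hw | hw | hw
    · rw [hw]
      linarith
    · rw [hw]
      linarith
    · rw [hw]
      linarith
  · rw [h.nb, Finset.mem_insert, Finset.mem_insert, Finset.mem_singleton]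
    rintro (h1 | h1 | h1)
    · exact za h1
    · exact zb h1
    · exact zc h1

private theorem D_two {V : Finset (Ed 3)} {v a b c : Ed 3} (h : Sk V v a b c) {x : Ed 3} (hx : x ∈ V)
    (xc : x ≠ c) {r : ℝ} (h1 : 1 < r) (e : x - v = r • (c - v)) : False := by
  obtain ⟨-, -, hc, -, -, cv⟩ := sk_mem h
  have hr : 0 < r := by linarith
  have hi : r⁻¹ * r = 1 := inv_mul_cancel₀ hr.ne'
  have hi1 : r⁻¹ ≤ 1 := inv_le_one_of_one_le₀ h1.le
  have h2 : c ∈ hl ({v, x} : Finset (Ed 3)) := by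
    have h3 : c = (1 - r⁻¹) • v + r⁻¹ • x := by
      have h4 : r⁻¹ • (x - v) = c - v := by
        rw [e, smul_smul, hi, one_smul]
      have h5 : c = v + r⁻¹ • (x - v) := by
        rw [h4]
        abel
      nth_rewrite 1 [h5]
      module
    rw [h3]
    exact (convex_convexHull ℝ _) (mem_hl (by simp)) (mem_hl (by simp)) (by linarith)
      (inv_nonneg.2 hr.le) (by ring)
  have h6 : ({v, x} : Finset (Ed 3)) ⊆ V := by
    intro z hz
    rw [Finset.mem_insert, Finset.mem_singleton] at hz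
    rcases hz with rfl | rfl
    · exact h.vV
    · exact hx
  have h7 := vert_hl h.vert h6 hc h2
  rw [Finset.mem_insert, Finset.mem_singleton] at h7
  rcases h7 with h7 | h7
  · exact cv h7
  · exact xc h7.symm

theorem sk_pos {V : Finset (Ed 3)} {v a b c : Ed 3} (h : Sk V v a b c) {x : Ed 3} (hx : x ∈ V) (xv : x ≠ v)
    (xa : x ≠ a) (xb : x ≠ b) (xc : x ≠ c) :
    ∃ p q r : ℝ, 0 ≤ p ∧ 0 ≤ q ∧ 0 ≤ r ∧ 1 < p + q + r ∧ x - v = p • (a - v) + q • (b - v) + r • (c - v) ∧
      (0 < p ∨ 0 < q) ∧ (0 < q ∨ 0 < r) ∧ (0 < r ∨ 0 < p) := by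
  have hn : x ∉ LibPol19.nb V v := by
    rw [h.nb, Finset.mem_insert, Finset.mem_insert, Finset.mem_singleton]
    rintro (h1 | h1 | h1)
    · exact xa h1
    · exact xb h1
    · exact xc h1
  obtain ⟨g, hg0, hg, hg1⟩ := out_sum h.vert h.vV hx xv hn
  have hab : a ∉ ({b, c} : Finset (Ed 3)) := by
    rw [Finset.mem_insert, Finset.mem_singleton, not_or]
    exact ⟨h.ab, h.ac⟩
  rw [h.nb, Finset.sum_insert hab, Finset.sum_pair h.bc] at hg hg1
  have e1 : x - v = g a • (a - v) + g b • (b - v) + g c • (c - v) := by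
    rw [hg, add_assoc]
  refine ⟨g a, g b, g c, hg0 a, hg0 b, hg0 c, by linarith, e1, ?_, ?_, ?_⟩
  · by_contra hc
    rw [not_or, not_lt, not_lt] at hc
    have h1 : g a = 0 := le_antisymm hc.1 (hg0 a)
    have h2 : g b = 0 := le_antisymm hc.2 (hg0 b)
    rw [h1, h2, zero_smul, zero_smul, zero_add, zero_add] at e1
    exact D_two h hx xc (by linarith) e1
  · by_contra hc
    rw [not_or, not_lt, not_lt] at hc
    have h1 : g b = 0 := le_antisymm hc.1 (hg0 b)
    have h2 : g c = 0 := le_antisymm hc.2 (hg0 c)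
    rw [h1, h2, zero_smul, zero_smul, add_zero, add_zero] at e1
    exact D_two (sk_rot h) hx xa (by linarith) e1
  · by_contra hc
    rw [not_or, not_lt, not_lt] at hc
    have h1 : g c = 0 := le_antisymm hc.1 (hg0 c)
    have h2 : g a = 0 := le_antisymm hc.2 (hg0 a)
    rw [h1, h2, zero_smul, zero_smul, zero_add, add_zero] at e1
    exact D_two (sk_rot (sk_rot h)) hx xb (by linarith) e1

theorem sk_ind {V : Finset (Ed 3)} {v a b c : Ed 3} (h : Sk V v a b c) {x : Ed 3} {p q r : ℝ} (hr : 0 < r)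
    (e : x - v = p • (a - v) + q • (b - v) + r • (c - v)) :
    ({v, x, a, b} : Finset (Ed 3)).card = 4 ∧
      AffineIndependent ℝ (fun y : ({v, x, a, b} : Finset (Ed 3)) => (y.1 : Ed 3)) := by
  obtain ⟨ℓ, ha, hb, hc⟩ := sk_fun h 0 0 1
  obtain ⟨haV, hbV, -, av, bv, -⟩ := sk_mem h
  have hsub : ({v, a, b} : Finset (Ed 3)) ⊆ V := by
    intro y hy
    rw [Finset.mem_insert, Finset.mem_insert, Finset.mem_singleton] at hy
    rcases hy with hy | hy | hy
    · rw [hy]
      exact h.vV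
    · rw [hy]
      exact haV
    · rw [hy]
      exact hbV
  have hcard : ({v, a, b} : Finset (Ed 3)).card = 3 := by
    rw [Finset.card_insert_of_notMem, Finset.card_pair h.ab]
    rw [Finset.mem_insert, Finset.mem_singleton, not_or]
    exact ⟨fun h2 => av h2.symm, fun h2 => bv h2.symm⟩
  have hx : ℓ x ≠ ℓ v := by
    have h1 := congrArg ℓ e
    rw [map_add, map_add, map_smul, map_smul, map_smul, ha, hb, hc, map_sub] at h1
    simp only [smul_eq_mul, mul_zero, zero_add, mul_one] at h1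
    intro h2
    linarith
  have h2 := indep4 h.vert hsub hcard (w := x) (ℓ := ℓ) (c := ℓ v) ?_ hx
  · rw [Finset.insert_comm v x]
    exact h2
  · intro y hy
    rw [map_sub] at ha hb
    rw [Finset.mem_insert, Finset.mem_insert, Finset.mem_singleton] at hy
    rcases hy with hy | hy | hy
    · rw [hy]
    · rw [hy]
      linarith
    · rw [hy]
      linarith

theorem conv4 {K : Set (Ed 3)} (hK : Convex ℝ K) {v a b c : Ed 3} (hv : v ∈ K) (ha : a ∈ K)
    (hb : b ∈ K) (hc : c ∈ K) {α β γ : ℝ} (h1 : 0 ≤ α) (h2 : 0 ≤ β) (h3 : 0 ≤ γ) (h4 : α + β + γ ≤ 1) :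
    v + (α • (a - v) + β • (b - v) + γ • (c - v)) ∈ K := by
  have h := hK.sum_mem (t := (Finset.univ : Finset (Fin 4))) (w := ![1 - (α + β + γ), α, β, γ])
    (z := ![v, a, b, c]) ?_ ?_ ?_
  · rw [Fin.sum_univ_four] at h
    have e : v + (α • (a - v) + β • (b - v) + γ • (c - v)) =
        (1 - (α + β + γ)) • v + α • a + β • b + γ • c := by
      module
    rw [e]
    exact h
  · intro i _
    fin_cases i
    · exact sub_nonneg.2 h4
    · exact h1
    · exact h2
    · exact h3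
  · rw [Fin.sum_univ_four]
    show 1 - (α + β + γ) + α + β + γ = 1
    ring
  · intro i _
    fin_cases i
    · exact hv
    · exact ha
    · exact hb
    · exact hc

/-- the coefficients of a common point outside the other tetrahedron vanish -/
theorem key_zero {W : Finset (Ed 3)} {T : Finset (Finset (Ed 3))} (hT : TetD W T) {t u : Finset (Ed 3)}
    (ht : t ∈ T) (hu : u ∈ T) {w : Ed 3 → ℝ} (h0 : ∀ z ∈ t, 0 ≤ w z) (h1 : ∑ z ∈ t, w z = 1) {y : Ed 3}
    (h2 : ∑ z ∈ t, w z • z = y) (h3 : y ∈ hl u) : ∀ z ∈ t, z ∉ u → w z = 0 := by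
  have hy : y ∈ hl t := Finset.mem_convexHull'.2 ⟨w, h0, h1, h2⟩
  have hy5 := hT.inter t ht u hu ⟨hy, h3⟩
  obtain ⟨-, -, hind⟩ := hT.mem t ht
  obtain ⟨w', -, hw1', hwy'⟩ := Finset.mem_convexHull'.1 hy5
  have e1 : ∑ z ∈ t, (w z - if z ∈ t ∩ u then w' z else 0) = 0 := by
    rw [Finset.sum_sub_distrib, h1, Finset.sum_ite_mem, Finset.inter_eq_right.2 Finset.inter_subset_left,
      hw1', sub_self]
  have e2 : ∑ z ∈ t, (w z - if z ∈ t ∩ u then w' z else 0) • z = 0 := by
    simp only [sub_smul, ite_smul, zero_smul]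
    rw [Finset.sum_sub_distrib, h2, Finset.sum_ite_mem, Finset.inter_eq_right.2 Finset.inter_subset_left,
      hwy', sub_self]
  intro z hz hzt
  have e3 := hind.eq_zero_of_sum_eq_zero_subtype e1 e2 z hz
  rw [if_neg (fun h1 => hzt (Finset.mem_inter.1 h1).2), sub_zero] at e3
  exact e3

end Pool.Agent.LibCor47
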