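import Pool.Agent.LibCor47.D

/-!
Cor47: if `x` is in the plane of `v, b, c` then the tetrahedron `{x, a, b, c}` is the only one of the tetrahedralization
of `V - v` which contains the edge `b c`.
-/

set_option autoImplicit false

namespace Pool.Agent.LibCor47

open Finset Pool.Agent.LibPol19 Pool.Agent.LibTet88 Pool.Agent.LibTet23
open scoped Classical

theorem sk_edge {V : Finset (Ed 3)} {v a b c : Ed 3} (h : Sk V v a b c) {T : Finset (Finset (Ed 3))}
    (hT : TetD (V.erase v) T) {x : Ed 3} {q r : ℝ} (h1 : 1 < q + r)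
    (e : x - v = q • (b - v) + r • (c - v)) (h0 : ({x, a, b, c} : Finset (Ed 3)) ∈ T)
    {t : Finset (Ed 3)} (ht : t ∈ T) (hb : b ∈ t) (hc : c ∈ t) : t = {x, a, b, c} := by
  have hcard : ({x, a, b, c} : Finset (Ed 3)).card = t.card := by
    rw [(hT.mem t ht).2.1, (hT.mem _ h0).2.1]
  refine Finset.eq_of_subset_of_card_le ?_ hcard.le
  intro z hz
  by_contra hz0
  have hz1 : z ≠ x ∧ z ≠ a ∧ z ≠ b ∧ z ≠ c := by
    simp only [Finset.mem_insert, Finset.mem_singleton, not_or] at hz0
    exact hz0
  obtain ⟨zx, za, zb, zc⟩ := hz1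
  have hzV := (hT.mem t ht).1 hz
  rw [Finset.mem_erase] at hzV
  obtain ⟨α, β, γ, hα, -, -, hs, ez, -, -, -⟩ := sk_pos h hzV.2 hzV.1 za zb zc
  have hσ : 0 < q + r - 1 := by linarith
  obtain ⟨κ, hκ⟩ : ∃ κ : ℝ, κ * (q + r - 1) = α + β + γ - 1 :=
    ⟨(α + β + γ - 1) / (q + r - 1), by field_simp⟩
  have hκ0 : 0 ≤ κ := by
    by_contra hcon
    push Not at hcon
    nlinarith [mul_neg_of_neg_of_pos hcon hσ]
  have hvv : (q + r - 1) • v = q • b + r • c - x := by
    have h2 : q • b + r • c - x - (q + r - 1) • v = q • (b - v) + r • (c - v) - (x - v) := by module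
    rw [← e, sub_self] at h2
    exact (sub_eq_zero.1 h2).symm
  -- the barycentric coordinates of `z`
  have hz3 : z = κ • x + α • a + (β - κ * q) • b + (γ - κ * r) • c := by
    have h2 : z = α • a + β • b + γ • c - (α + β + γ - 1) • v := by
      have h3 : z = v + (α • (a - v) + β • (b - v) + γ • (c - v)) := by
        rw [← ez]
        abel
      nth_rewrite 1 [h3]
      module
    rw [h2, ← hκ, mul_smul, hvv]
    module
  obtain ⟨M, hM⟩ : ∃ M : ℝ, M = |β - κ * q| + |γ - κ * r| := ⟨_, rfl⟩
  have hM0 : 0 ≤ M := by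
    rw [hM]
    positivity
  have hMb : 0 ≤ M + (β - κ * q) := by
    have h2 := neg_abs_le (β - κ * q)
    have h3 := abs_nonneg (γ - κ * r)
    rw [hM]
    linarith
  have hMc : 0 ≤ M + (γ - κ * r) := by
    have h2 := neg_abs_le (γ - κ * r)
    have h3 := abs_nonneg (β - κ * q)
    rw [hM]
    linarith
  obtain ⟨ε, hε⟩ : ∃ ε : ℝ, ε * (1 + 2 * M) = 1 := ⟨1 / (1 + 2 * M), by field_simp⟩
  have hε0 : 0 < ε := by
    by_contra hcon
    push Not at hcon
    nlinarith [mul_nonneg (neg_nonneg.2 hcon) hM0]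
  -- the point in the tetrahedron `t`
  have hbc := h.bc
  let w : Ed 3 → ℝ := fun y => if y = b then ε * M else if y = c then ε * M else if y = z then ε else 0
  have wb : w b = ε * M := by simp [w]
  have wc : w c = ε * M := by simp [w]
  have wz : w z = ε := by simp [w, zb, zc]
  have w0 : ∀ y, 0 ≤ w y := by
    intro y
    simp only [w]
    split_ifs <;> positivity
  have hsub : ({b, c, z} : Finset (Ed 3)) ⊆ t := by
    intro y hy
    simp only [Finset.mem_insert, Finset.mem_singleton] at hy
    rcases hy with rfl | rfl | rfl <;> assumption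
  have wout : ∀ y ∈ t, y ∉ ({b, c, z} : Finset (Ed 3)) → w y = 0 := by
    intro y _ hy
    simp only [Finset.mem_insert, Finset.mem_singleton, not_or] at hy
    simp [w, hy.1, hy.2.1, hy.2.2]
  have hs3 : ∀ {N : Type} [AddCommMonoid N] (f : Ed 3 → N),
      ∑ y ∈ ({b, c, z} : Finset (Ed 3)), f y = f b + (f c + f z) := by
    intro N _ f
    rw [Finset.sum_insert, Finset.sum_insert, Finset.sum_singleton]
    · rw [Finset.mem_singleton]
      exact fun h => zc h.symm
    · rw [Finset.mem_insert, Finset.mem_singleton]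
      rintro (h | h)
      · exact hbc h
      · exact zb h.symm
  have hw1 : ∑ y ∈ t, w y = 1 := by
    rw [← Finset.sum_subset hsub wout, hs3, wb, wc, wz]
    linarith
  have hwy : ∑ y ∈ t, w y • y = (ε * M) • b + ((ε * M) • c + ε • z) := by
    rw [← Finset.sum_subset hsub (fun y hy hy' => by rw [wout y hy hy', zero_smul]), hs3, wb, wc, wz]
  -- the point in `{x, a, b, c}`
  have hin : (ε * M) • b + ((ε * M) • c + ε • z) ∈ hl ({x, a, b, c} : Finset (Ed 3)) := by
    have hK : Convex ℝ (hl ({x, a, b, c} : Finset (Ed 3))) := convex_convexHull ℝ _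
    have h2 := conv4 hK (v := c) (a := x) (b := a) (c := b) (mem_hl (by simp)) (mem_hl (by simp))
      (mem_hl (by simp)) (mem_hl (by simp)) (α := ε * κ) (β := ε * α) (γ := ε * (M + (β - κ * q)))
      (by positivity) (by positivity) (mul_nonneg hε0.le hMb) ?_
    · have h3 : (ε * M) • b + ((ε * M) • c + ε • z) =
          c + ((ε * κ) • (x - c) + (ε * α) • (a - c) + (ε * (M + (β - κ * q))) • (b - c)) := by
        have h4 : c + ((ε * κ) • (x - c) + (ε * α) • (a - c) + (ε * (M + (β - κ * q))) • (b - c)) -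
            ((ε * M) • b + ((ε * M) • c + ε • (κ • x + α • a + (β - κ * q) • b + (γ - κ * r) • c))) =
            (1 - ε * (1 + 2 * M) - ε * (κ * (1 - (q + r)) + (α + β + γ - 1))) • c := by
          module
        rw [hε] at h4
        have h5 : κ * (1 - (q + r)) + (α + β + γ - 1) = 0 := by
          rw [← hκ]
          ring
        rw [h5, mul_zero, sub_self, sub_zero, zero_smul] at h4
        rw [hz3]
        exact (sub_eq_zero.1 h4).symm
      rw [h3]
      exact h2
    · have h5 : κ + α + (β - κ * q) + (γ - κ * r) = 1 := by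
        linarith [hκ, (by ring : κ * (q + r - 1) = κ * q + κ * r - κ)]
      have h6 : ε * κ + ε * α + ε * (M + (β - κ * q)) =
          ε * (1 + 2 * M) - ε * (M + (γ - κ * r)) := by
        have h7 : κ + α + (β - κ * q) = 1 - (γ - κ * r) := by linarith
        have h8 : ε * κ + ε * α + ε * (M + (β - κ * q)) = ε * (κ + α + (β - κ * q)) + ε * M := by ring
        rw [h8, h7]
        ring
      rw [h6, hε]
      have h9 : 0 ≤ ε * (M + (γ - κ * r)) := mul_nonneg hε0.le hMc
      linarith
  have hfin := key_zero hT ht h0 (fun y _ => w0 y) hw1 hwy hin z hz hz0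
  rw [wz] at hfin
  exact hε0.ne' hfin

end Pool.Agent.LibCor47
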