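import Pool.Agent.LibCor47.D

/-!
Cor47: intersections of the new tetrahedra with each other and with the old ones (after LibTet23.C7, C8).
-/

set_option autoImplicit false

namespace Pool.Agent.LibCor47

open Finset Pool.Agent.LibPol19 Pool.Agent.LibTet88 Pool.Agent.LibTet23
open scoped Classical

theorem sk_nn {V : Finset (Ed 3)} {v a b c : Ed 3} (h : Sk V v a b c) {x : Ed 3} {p q r : ℝ} (hp : 0 < p)
    (hr : 0 < r) (hxe : x - v = p • (a - v) + q • (b - v) + r • (c - v)) :
    hl ({v, x, a, b} : Finset (Ed 3)) ∩ hl ({v, x, b, c} : Finset (Ed 3)) ⊆ hl ({v, x, b} : Finset (Ed 3)) := by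
  obtain ⟨n, na, nb', nc⟩ := sk_fun h r 0 (-p)
  have ea : n a = n v + r := by rw [map_sub] at na; linarith
  have eb : n b = n v := by rw [map_sub] at nb'; linarith
  have ec : n c = n v - p := by rw [map_sub] at nc; linarith
  have ex : n x = n v := by
    have h1 : n (x - v) = p * r + q * 0 + r * (-p) := by
      rw [hxe, map_add, map_add, map_smul, map_smul, map_smul, na, nb', nc]
      simp only [smul_eq_mul]
    rw [map_sub] at h1
    linarith
  rintro y ⟨hy, hy'⟩
  have g1 : n v ≤ n y := by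
    refine ge_of_hl n (fun z hz => ?_) hy
    simp only [Finset.mem_insert, Finset.mem_singleton] at hz
    rcases hz with rfl | rfl | rfl | rfl <;> linarith
  have g2 : ∀ z ∈ ({v, x, b, c} : Finset (Ed 3)), n z ≤ n v := by
    intro z hz
    simp only [Finset.mem_insert, Finset.mem_singleton] at hz
    rcases hz with rfl | rfl | rfl | rfl <;> linarith
  have g3 : n y = n v := le_antisymm (le_of_hl n g2 hy') g1
  refine hl_mono ?_ (hl_filter n g2 hy' g3)
  intro z hz
  rw [Finset.mem_filter] at hz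
  obtain ⟨hz, hz'⟩ := hz
  simp only [Finset.mem_insert, Finset.mem_singleton] at hz ⊢
  rcases hz with rfl | rfl | rfl | rfl
  · exact Or.inl rfl
  · exact Or.inr (Or.inl rfl)
  · exact Or.inr (Or.inr rfl)
  · exfalso
    linarith

theorem sk_no {V : Finset (Ed 3)} {v a b c : Ed 3} (h : Sk V v a b c) {T : Finset (Finset (Ed 3))}
    (hT : TetD (V.erase v) T) {x : Ed 3} (hx : x ∈ V) (xv : x ≠ v)
    (xa : x ≠ a) (xb : x ≠ b) (xc : x ≠ c) {p q r : ℝ} (hp : 0 ≤ p) (hq : 0 ≤ q) (hr : 0 < r)
    (hpq : 0 < p ∨ 0 < q) (hσ : 1 < p + q + r) (hxv : x - v = p • (a - v) + q • (b - v) + r • (c - v))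
    (h0 : ({x, a, b, c} : Finset (Ed 3)) ∈ T)
    (hu : ∀ t ∈ T, ({a, b, c} : Finset (Ed 3)) ⊆ t → t = {x, a, b, c})
    (hep : p = 0 → ∀ t ∈ T, b ∈ t → c ∈ t → t = {x, a, b, c})
    (heq : q = 0 → ∀ t ∈ T, c ∈ t → a ∈ t → t = {x, a, b, c}) {t : Finset (Ed 3)} (ht : t ∈ T)
    (hne : t ≠ {x, a, b, c}) :
    hl ({v, x, a, b} : Finset (Ed 3)) ∩ hl t ⊆ hl (({v, x, a, b} : Finset (Ed 3)) ∩ t) := by
  rintro y ⟨hy1, hy2⟩
  obtain ⟨-, -, -, av, bv, cv⟩ := sk_mem h
  have ab := h.ab
  have ac := h.ac
  have bc := h.bc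
  obtain ⟨m, k, ma, mb, mc, mv, mz⟩ := sk_cap h
  have hmx : m x < k := mz x hx xv xa xb xc
  have htm : ∀ z ∈ t, m z ≤ k := by
    intro z hz
    have hz1 := (hT.mem t ht).1 hz
    rw [Finset.mem_erase] at hz1
    by_cases h1 : z = a
    · rw [h1, ma]
    by_cases h2 : z = b
    · rw [h2, mb]
    by_cases h3 : z = c
    · rw [h3, mc]
    exact (mz z hz1.2 hz1.1 h1 h2 h3).le
  have hvt : v ∉ t := fun hv => by
    have hz1 := (hT.mem t ht).1 hv
    rw [Finset.mem_erase] at hz1
    exact hz1.1 rfl
  have hmy : m y ≤ k := le_of_hl m htm hy2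
  obtain ⟨w, hw0, hw1, hwy⟩ := Finset.mem_convexHull'.1 hy1
  have s1 : ∀ {M : Type} [AddCommMonoid M] (f : Ed 3 → M),
      ∑ z ∈ ({v, x, a, b} : Finset (Ed 3)), f z = f v + (f x + (f a + f b)) := by
    intro M _ f
    rw [Finset.sum_insert, Finset.sum_insert, Finset.sum_insert, Finset.sum_singleton]
    · simp [ab]
    · simp [xa, xb]
    · simp [Ne.symm xv, Ne.symm av, Ne.symm bv]
  have s0 : ∀ {M : Type} [AddCommMonoid M] (f : Ed 3 → M),
      ∑ z ∈ ({x, a, b, c} : Finset (Ed 3)), f z = f x + (f a + (f b + f c)) := by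
    intro M _ f
    rw [Finset.sum_insert, Finset.sum_insert, Finset.sum_insert, Finset.sum_singleton]
    · simp [bc]
    · simp [ab, ac]
    · simp [xa, xb, xc]
  rw [s1] at hw1 hwy
  have hσ0 : 0 < p + q + r - 1 := by linarith
  have hv0 : 0 ≤ w v := hw0 v (by simp)
  have hx0 : 0 ≤ w x := hw0 x (by simp)
  have ha0 : 0 ≤ w a := hw0 a (by simp)
  have hb0 : 0 ≤ w b := hw0 b (by simp)
  obtain ⟨θ, hθ⟩ : ∃ θ : ℝ, θ * (p + q + r - 1) = w v := ⟨w v / (p + q + r - 1), by field_simp⟩
  have hθ0 : 0 ≤ θ := by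
    by_contra hc
    push Not at hc
    nlinarith [mul_neg_of_neg_of_pos hc hσ0]
  have hvv : (p + q + r - 1) • v = p • a + q • b + r • c - x := by
    have h1 : p • a + q • b + r • c - x - (p + q + r - 1) • v
        = p • (a - v) + q • (b - v) + r • (c - v) - (x - v) := by module
    rw [← hxv, sub_self] at h1
    exact (sub_eq_zero.1 h1).symm
  have hy3 : y = (w x - θ) • x + ((w a + θ * p) • a + ((w b + θ * q) • b + (θ * r) • c)) := by
    have h1 : w v • v = θ • (p • a + q • b + r • c - x) := by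
      rw [← hvv, smul_smul, hθ]
    rw [← hwy, h1]
    module
  have hsum : (w x - θ) + ((w a + θ * p) + ((w b + θ * q) + θ * r)) = 1 := by
    have h1 : w v = θ * (p + q + r) - θ := by rw [← hθ]; ring
    linarith [hw1, h1, (by ring : θ * (p + q + r) = θ * p + θ * q + θ * r)]
  have hx1 : 0 ≤ w x - θ := by
    have h1 : m y = k - (w x - θ) * (k - m x) := by
      rw [hy3, map_add, map_add, map_add, map_smul, map_smul, map_smul, map_smul, ma, mb, mc]
      simp only [smul_eq_mul]
      linear_combination k * hsum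
    by_contra hc
    push Not at hc
    nlinarith [mul_neg_of_neg_of_pos hc (sub_pos.2 hmx)]
  let W : Ed 3 → ℝ := fun z => if z = x then w x - θ else if z = a then w a + θ * p else
    if z = b then w b + θ * q else if z = c then θ * r else 0
  have Wx : W x = w x - θ := by simp [W]
  have Wa : W a = w a + θ * p := by simp [W, Ne.symm xa]
  have Wb : W b = w b + θ * q := by simp [W, Ne.symm xb, Ne.symm ab]
  have Wc : W c = θ * r := by simp [W, Ne.symm xc, Ne.symm ac, Ne.symm bc]
  have W0 : ∀ z, 0 ≤ W z := by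
    intro z
    simp only [W]
    split_ifs
    · exact hx1
    · positivity
    · positivity
    · positivity
    · exact le_rfl
  have hS1 : ∑ z ∈ ({x, a, b, c} : Finset (Ed 3)), W z = 1 := by
    rw [s0, Wx, Wa, Wb, Wc, hsum]
  have hSy : ∑ z ∈ ({x, a, b, c} : Finset (Ed 3)), W z • z = y := by
    rw [s0, Wx, Wa, Wb, Wc, hy3]
  have hkey := key_zero hT h0 ht (fun z _ => W0 z) hS1 hSy hy2
  have hθz : θ = 0 := by
    by_cases hc : c ∈ t
    · by_cases ha : a ∈ t
      · by_cases hb : b ∈ t
        · exfalso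
          apply hne
          apply hu t ht
          intro z hz
          simp only [Finset.mem_insert, Finset.mem_singleton] at hz
          rcases hz with rfl | rfl | rfl <;> assumption
        · have h1 := hkey b (by simp) hb
          rw [Wb] at h1
          have h2 : 0 ≤ θ * q := by positivity
          have h3 : θ * q = 0 := by linarith
          rcases mul_eq_zero.1 h3 with h4 | h4
          · exact h4
          · exact absurd (heq h4 t ht hc ha) hne
      · have h1 := hkey a (by simp) ha
        rw [Wa] at h1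
        have h2 : 0 ≤ θ * p := by positivity
        have h3 : θ * p = 0 := by linarith
        rcases mul_eq_zero.1 h3 with h4 | h4
        · exact h4
        · by_cases hb : b ∈ t
          · exact absurd (hep h4 t ht hb hc) hne
          · have h5 := hkey b (by simp) hb
            rw [Wb] at h5
            have h6 : 0 ≤ θ * q := by positivity
            have h7 : θ * q = 0 := by linarith
            rcases mul_eq_zero.1 h7 with h8 | h8
            · exact h8
            · exfalso
              rw [h4, h8] at hpq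
              rcases hpq with h9 | h9 <;> exact lt_irrefl _ h9
    · have h1 := hkey c (by simp) hc
      rw [Wc] at h1
      rcases mul_eq_zero.1 h1 with h4 | h4
      · exact h4
      · exact absurd h4 hr.ne'
  have hWc : W c = 0 := by rw [Wc, hθz, zero_mul]
  have hA : ({v, x, a, b} : Finset (Ed 3)) ∩ t ⊆ ({x, a, b, c} : Finset (Ed 3)) := by
    intro z hz
    rw [Finset.mem_inter] at hz
    simp only [Finset.mem_insert, Finset.mem_singleton] at hz ⊢
    rcases hz.1 with h1 | h1 | h1 | h1
    · exact absurd (h1 ▸ hz.2) hvt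
    · exact Or.inl h1
    · exact Or.inr (Or.inl h1)
    · exact Or.inr (Or.inr (Or.inl h1))
  have hW0 : ∀ z ∈ ({x, a, b, c} : Finset (Ed 3)), z ∉ ({v, x, a, b} : Finset (Ed 3)) ∩ t → W z = 0 := by
    intro z hz hzA
    by_cases hzt : z ∈ t
    · have hz' := hz
      simp only [Finset.mem_insert, Finset.mem_singleton] at hz'
      rcases hz' with h1 | h1 | h1 | h1
      · exact absurd (Finset.mem_inter.2 ⟨by simp [h1], hzt⟩) hzA
      · exact absurd (Finset.mem_inter.2 ⟨by simp [h1], hzt⟩) hzA
      · exact absurd (Finset.mem_inter.2 ⟨by simp [h1], hzt⟩) hzA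
      · rw [h1, hWc]
    · exact hkey z hz hzt
  refine Finset.mem_convexHull'.2 ⟨W, fun z _ => W0 z, ?_, ?_⟩
  · rw [Finset.sum_subset hA hW0, hS1]
  · rw [Finset.sum_subset hA (fun z hz hzA => by rw [hW0 z hz hzA, zero_smul]), hSy]

end Pool.Agent.LibCor47
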