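import Pool.Agent.LibCor47.P

/-!
Cor47: the Hamiltonian path when `{x, a, b, c}` is the only tetrahedron containing the edge `a b`.
-/

set_option autoImplicit false

namespace Pool.Agent.LibCor47

open Finset Pool.Agent.LibPol19 Pool.Agent.LibTet88 Pool.Agent.LibTet23
open scoped Classical

private theorem CA_path {α : Type*} [inst : DecidableEq α] {T N : Finset (Finset α)} (hT : HP T) {t₀ : Finset α}
    (h0 : t₀ ∈ T) (hN : N.card = 2)
    (hd : Disjoint N T) (hc : ∀ n ∈ N, ∀ n' ∈ N, n ≠ n' → (n ∩ n').card = 3) (φ : Finset α → Finset α)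
    (h1 : ∀ u ∈ T, u ≠ t₀ → (u ∩ t₀).card = 3 → φ u ∈ N ∧ (u ∩ φ u).card = 3)
    (h2 : ∀ u ∈ T, ∀ u' ∈ T, u ≠ t₀ → u' ≠ t₀ → (u ∩ t₀).card = 3 → (u' ∩ t₀).card = 3 → u ≠ u' → φ u ≠ φ u') :
    HP (T.erase t₀ ∪ N) := by
  have h : inst = fun a b => Classical.propDecidable (a = b) := Subsingleton.elim _ _
  subst h
  exact path_two hT h0 hN hd hc φ h1 h2

theorem sk_path {W : Finset (Ed 3)} {v a b c x : Ed 3} {T : Finset (Finset (Ed 3))} (hT : TetD W T) (hv : v ∉ W)
    (hP : HP T) (h0 : ({x, a, b, c} : Finset (Ed 3)) ∈ T)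
    (hu : ∀ t ∈ T, a ∈ t → b ∈ t → t = {x, a, b, c}) :
    HP (T.erase {x, a, b, c} ∪ {{v, x, b, c}, {v, x, c, a}}) := by
  obtain ⟨t₀, ht₀⟩ : ∃ t₀ : Finset (Ed 3), t₀ = {x, a, b, c} := ⟨_, rfl⟩
  rw [← ht₀] at h0 hu ⊢
  have h4 : t₀.card = 4 := (hT.mem t₀ h0).2.1
  have hvT : ∀ u ∈ T, v ∉ u := fun u hu' hvu => hv ((hT.mem u hu').1 hvu)
  have hv0 : v ∉ t₀ := hvT _ h0
  have hxabc : x ∉ ({a, b, c} : Finset (Ed 3)) := by
    intro hx
    have h5 : t₀ = {a, b, c} := by
      rw [ht₀]
      exact Finset.insert_eq_of_mem hx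
    have h6 : t₀.card ≤ 3 := by
      rw [h5]
      exact Finset.card_le_three
    omega
  have h3 : ({a, b, c} : Finset (Ed 3)).card = 3 := by
    have h5 : t₀.card = ({a, b, c} : Finset (Ed 3)).card + 1 := by
      rw [ht₀]
      exact Finset.card_insert_of_notMem hxabc
    omega
  have habc : a ∉ ({b, c} : Finset (Ed 3)) := by
    intro hx
    have h6 : ({a, b, c} : Finset (Ed 3)).card ≤ 2 := by
      rw [Finset.insert_eq_of_mem hx]
      exact Finset.card_le_two
    omega
  have hbc : b ≠ c := by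
    rintro rfl
    have h6 : ({a, b, b} : Finset (Ed 3)).card ≤ 2 := by
      rw [Finset.pair_eq_singleton]
      exact Finset.card_le_two
    omega
  have hxa : x ≠ a := fun h => hxabc (by rw [h]; simp)
  have hxb : x ≠ b := fun h => hxabc (by rw [h]; simp)
  have hxc : x ≠ c := fun h => hxabc (by rw [h]; simp)
  have hab : a ≠ b := fun h => habc (by rw [h]; simp)
  have hac : a ≠ c := fun h => habc (by rw [h]; simp)
  have ea : t₀.erase a = {x, b, c} := by
    rw [ht₀]
    ext z
    simp only [Finset.mem_erase, Finset.mem_insert, Finset.mem_singleton]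
    constructor
    · tauto
    · rintro (h | h | h)
      · exact ⟨by rw [h]; exact hxa, Or.inl h⟩
      · exact ⟨by rw [h]; exact hab.symm, Or.inr (Or.inr (Or.inl h))⟩
      · exact ⟨by rw [h]; exact hac.symm, Or.inr (Or.inr (Or.inr h))⟩
  have eb : t₀.erase b = {x, c, a} := by
    rw [ht₀]
    ext z
    simp only [Finset.mem_erase, Finset.mem_insert, Finset.mem_singleton]
    constructor
    · tauto
    · rintro (h | h | h)
      · exact ⟨by rw [h]; exact hxb, Or.inl h⟩
      · exact ⟨by rw [h]; exact hbc.symm, Or.inr (Or.inr (Or.inr h))⟩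
      · exact ⟨by rw [h]; exact hab, Or.inr (Or.inl h)⟩
  have hsub : ({a, b} : Finset (Ed 3)) ⊆ t₀ := by
    rw [ht₀]
    intro z hz
    simp only [Finset.mem_insert, Finset.mem_singleton] at hz ⊢
    tauto
  have ha0 : a ∈ t₀ := hsub (by simp)
  have hb0 : b ∈ t₀ := hsub (by simp)
  have hNeq : ({{v, x, b, c}, {v, x, c, a}} : Finset (Finset (Ed 3))) =
      ({a, b} : Finset (Ed 3)).image fun y => insert v (t₀.erase y) := by
    rw [Finset.image_insert, Finset.image_singleton, ea, eb]
  have hnot : ∀ y ∈ t₀, y ∉ insert v (t₀.erase y) := by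
    intro y hy h
    rw [Finset.mem_insert] at h
    rcases h with h | h
    · exact hv0 (h ▸ hy)
    · exact Finset.notMem_erase y t₀ h
  have hmemi : ∀ y y' : Ed 3, y ∈ t₀ → y' ∈ t₀ → y ≠ y' → y ∈ insert v (t₀.erase y') := by
    intro y y' hy hy' hne
    exact Finset.mem_insert_of_mem (Finset.mem_erase.2 ⟨hne, hy⟩)
  rw [hNeq]
  refine CA_path hP h0 ?_ ?_ ?_ (fun u => insert v (u ∩ t₀)) ?_ ?_
  · rw [Finset.card_image_of_injOn, Finset.card_pair hab]
    intro y hy y' hy' h
    by_contra hne
    have h5 := hmemi y y' (hsub hy) (hsub hy') hne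
    have h6 : insert v (t₀.erase y) = insert v (t₀.erase y') := h
    rw [← h6] at h5
    exact hnot y (hsub hy) h5
  · rw [Finset.disjoint_left]
    intro n hn hnT
    rw [Finset.mem_image] at hn
    obtain ⟨y, -, rfl⟩ := hn
    exact hvT _ hnT (Finset.mem_insert_self _ _)
  · intro n hn n' hn' hne
    rw [Finset.mem_image] at hn hn'
    obtain ⟨y, hy, rfl⟩ := hn
    obtain ⟨y', hy', rfl⟩ := hn'
    have hyy : y ≠ y' := by
      intro h
      exact hne (by rw [h])
    have h5 : insert v (t₀.erase y) ∩ insert v (t₀.erase y') = insert v ((t₀.erase y).erase y') := by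
      ext z
      simp only [Finset.mem_inter, Finset.mem_insert, Finset.mem_erase]
      tauto
    rw [h5, Finset.card_insert_of_notMem, Finset.card_erase_of_mem, Finset.card_erase_of_mem (hsub hy), h4]
    · exact Finset.mem_erase.2 ⟨hyy.symm, hsub hy'⟩
    · intro h
      exact hv0 (Finset.mem_of_mem_erase (Finset.mem_of_mem_erase h))
  · intro u huT hne hcard
    have h5 : ∃ y ∈ t₀, y ∉ u ∩ t₀ := by
      by_contra hcon
      push Not at hcon
      have h6 := Finset.card_le_card hcon
      omega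
    obtain ⟨y, hy, hyu⟩ := h5
    have h6 : u ∩ t₀ = t₀.erase y := by
      refine Finset.eq_of_subset_of_card_le ?_ ?_
      · intro z hz
        refine Finset.mem_erase.2 ⟨?_, Finset.mem_of_mem_inter_right hz⟩
        intro h
        exact hyu (h ▸ hz)
      · rw [Finset.card_erase_of_mem hy, h4, hcard]
    have hyab : y ∈ ({a, b} : Finset (Ed 3)) := by
      by_contra hcon
      simp only [Finset.mem_insert, Finset.mem_singleton, not_or] at hcon
      apply hne
      apply hu u huT
      · have h8 : a ∈ t₀.erase y := Finset.mem_erase.2 ⟨fun h => hcon.1 h.symm, ha0⟩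
        rw [← h6] at h8
        exact Finset.mem_of_mem_inter_left h8
      · have h8 : b ∈ t₀.erase y := Finset.mem_erase.2 ⟨fun h => hcon.2 h.symm, hb0⟩
        rw [← h6] at h8
        exact Finset.mem_of_mem_inter_left h8
    refine ⟨?_, ?_⟩
    · show insert v (u ∩ t₀) ∈ _
      rw [h6]
      exact Finset.mem_image_of_mem _ hyab
    · show (u ∩ insert v (u ∩ t₀)).card = 3
      have h7 : u ∩ insert v (u ∩ t₀) = u ∩ t₀ := by
        ext z
        simp only [Finset.mem_inter, Finset.mem_insert]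
        constructor
        · rintro ⟨h8, h9 | h9⟩
          · exact (hvT u huT (h9 ▸ h8)).elim
          · exact h9
        · rintro ⟨h8, h9⟩
          exact ⟨h8, Or.inr ⟨h8, h9⟩⟩
      rw [h7, hcard]
  · intro u huT u' huT' hne hne' hcard hcard' huu h
    have h' : insert v (u ∩ t₀) = insert v (u' ∩ t₀) := h
    have h5 : u ∩ t₀ = u' ∩ t₀ := by
      have e1 : (insert v (u ∩ t₀)).erase v = u ∩ t₀ :=
        Finset.erase_insert fun hh => hv0 (Finset.mem_of_mem_inter_right hh)
      have e2 : (insert v (u' ∩ t₀)).erase v = u' ∩ t₀ :=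
        Finset.erase_insert fun hh => hv0 (Finset.mem_of_mem_inter_right hh)
      rw [← e1, ← e2, h']
    have h6 := tri_two hT hcard
    have h7 : ({u, u', t₀} : Finset (Finset (Ed 3))) ⊆ T.filter fun t => u ∩ t₀ ⊆ t := by
      intro z hz
      simp only [Finset.mem_insert, Finset.mem_singleton] at hz
      rw [Finset.mem_filter]
      rcases hz with rfl | rfl | rfl
      · exact ⟨huT, Finset.inter_subset_left⟩
      · exact ⟨huT', by rw [h5]; exact Finset.inter_subset_left⟩
      · exact ⟨h0, Finset.inter_subset_right⟩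
    have h8 := Finset.card_le_card h7
    have h9 : ({u, u', t₀} : Finset (Finset (Ed 3))).card = 3 := by
      rw [Finset.card_insert_of_notMem, Finset.card_pair hne']
      simp only [Finset.mem_insert, Finset.mem_singleton, not_or]
      exact ⟨huu, hne⟩
    omega

end Pool.Agent.LibCor47
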