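import Pool.Agent.LibCor47.D
import Pool.Agent.LibTet23.C3

/-!
Cor47: exactly one tetrahedron of `V - v` contains `a, b, c` (after LibTet23.C5); covering (after LibTet23.C6).
-/

set_option autoImplicit false

namespace Pool.Agent.LibCor47

open Finset Pool.Agent.LibPol19 Pool.Agent.LibTet88 Pool.Agent.LibTet23
open scoped Classical

private theorem C5_hl (a b c : Ed 3) : (1 / 3 : ℝ) • (a + b + c) ∈ hl ({a, b, c} : Finset (Ed 3)) := by
  have ha : a ∈ hl ({a, b, c} : Finset (Ed 3)) := mem_hl (by simp)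
  have hb : b ∈ hl ({a, b, c} : Finset (Ed 3)) := mem_hl (by simp)
  have hc : c ∈ hl ({a, b, c} : Finset (Ed 3)) := mem_hl (by simp)
  have hconv : Convex ℝ (hl ({a, b, c} : Finset (Ed 3))) := convex_convexHull ℝ _
  have h1 : (1 / 2 : ℝ) • b + (1 / 2 : ℝ) • c ∈ hl ({a, b, c} : Finset (Ed 3)) :=
    hconv hb hc (by norm_num) (by norm_num) (by norm_num)
  have h2 : (1 / 3 : ℝ) • a + (2 / 3 : ℝ) • ((1 / 2 : ℝ) • b + (1 / 2 : ℝ) • c) ∈
      hl ({a, b, c} : Finset (Ed 3)) := hconv ha h1 (by norm_num) (by norm_num) (by norm_num)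
  have h3 : (1 / 3 : ℝ) • (a + b + c) =
      (1 / 3 : ℝ) • a + (2 / 3 : ℝ) • ((1 / 2 : ℝ) • b + (1 / 2 : ℝ) • c) := by
    module
  rw [h3]
  exact h2

private theorem C5_last {V : Finset (Ed 3)} {v a b c : Ed 3} (h : Sk V v a b c)
    {s : Finset (Ed 3)} (hs : s ⊆ {a, b, c}) (hg : (1 / 3 : ℝ) • (a + b + c) ∈ hl s) : c ∈ s := by
  by_contra hc
  have hs2 : s ⊆ {a, b} := by
    intro z hz
    have h1 := hs hz
    rw [Finset.mem_insert, Finset.mem_insert, Finset.mem_singleton] at h1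
    rw [Finset.mem_insert, Finset.mem_singleton]
    rcases h1 with h1 | h1 | h1
    · exact Or.inl h1
    · exact Or.inr h1
    · exact absurd (h1 ▸ hz) hc
  obtain ⟨n, na, nb, nc⟩ := sk_fun h 0 0 1
  rw [map_sub] at na nb nc
  have h2 : n ((1 / 3 : ℝ) • (a + b + c)) = n v := by
    refine eq_of_hl n ?_ hg
    intro z hz
    have h3 := hs2 hz
    rw [Finset.mem_insert, Finset.mem_singleton] at h3
    rcases h3 with h3 | h3
    · rw [h3]; linarith
    · rw [h3]; linarith
  rw [map_smul, map_add, map_add, smul_eq_mul] at h2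
  linarith

private theorem C5_sub {V : Finset (Ed 3)} {v a b c : Ed 3} (h : Sk V v a b c)
    {s : Finset (Ed 3)} (hs : s ⊆ {a, b, c}) (hg : (1 / 3 : ℝ) • (a + b + c) ∈ hl s) :
    ({a, b, c} : Finset (Ed 3)) ⊆ s := by
  have hc : c ∈ s := C5_last h hs hg
  have ha : a ∈ s := by
    refine C5_last (sk_rot h) (s := s) ?_ ?_
    · intro z hz
      have h1 := hs hz
      simp only [Finset.mem_insert, Finset.mem_singleton] at h1 ⊢
      tauto
    · have h1 : b + c + a = a + b + c := by abel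
      rw [h1]
      exact hg
  have hb : b ∈ s := by
    refine C5_last (sk_rot (sk_rot h)) (s := s) ?_ ?_
    · intro z hz
      have h1 := hs hz
      simp only [Finset.mem_insert, Finset.mem_singleton] at h1 ⊢
      tauto
    · have h1 : c + a + b = a + b + c := by abel
      rw [h1]
      exact hg
  intro z hz
  rw [Finset.mem_insert, Finset.mem_insert, Finset.mem_singleton] at hz
  rcases hz with rfl | rfl | rfl
  · exact ha
  · exact hb
  · exact hc

private theorem C5_card {V : Finset (Ed 3)} {v a b c : Ed 3} (h : Sk V v a b c) :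
    ({a, b, c} : Finset (Ed 3)).card = 3 := by
  rw [Finset.card_insert_of_notMem, Finset.card_pair h.bc]
  rw [Finset.mem_insert, Finset.mem_singleton]
  rintro (h1 | h1)
  · exact h.ab h1
  · exact h.ac h1

theorem sk_t0 {V : Finset (Ed 3)} {v a b c : Ed 3} (h : Sk V v a b c) {T : Finset (Finset (Ed 3))}
    (hT : TetD (V.erase v) T) : ∃ x ∈ V, x ≠ v ∧ x ≠ a ∧ x ≠ b ∧ x ≠ c ∧ ({x, a, b, c} : Finset (Ed 3)) ∈ T ∧
      ∀ t ∈ T, ({a, b, c} : Finset (Ed 3)) ⊆ t → t = {x, a, b, c} := by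
  obtain ⟨m, k, ma, mb, mc, mv, ml⟩ := sk_cap h
  obtain ⟨aV, bV, cV, av, bv, cv⟩ := sk_mem h
  have hfV : ({a, b, c} : Finset (Ed 3)) ⊆ V.erase v := by
    intro z hz
    rw [Finset.mem_insert, Finset.mem_insert, Finset.mem_singleton] at hz
    rw [Finset.mem_erase]
    rcases hz with rfl | rfl | rfl
    · exact ⟨av, aV⟩
    · exact ⟨bv, bV⟩
    · exact ⟨cv, cV⟩
  have hg : (1 / 3 : ℝ) • (a + b + c) ∈ hl (V.erase v) := hl_mono hfV (C5_hl a b c)
  have hgT := hT.cover hg
  rw [Set.mem_iUnion₂] at hgT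
  obtain ⟨t, ht, hgt⟩ := hgT
  have hlt : ∀ z ∈ V.erase v, z ∉ ({a, b, c} : Finset (Ed 3)) → m z < k := by
    intro z hz hz2
    rw [Finset.mem_erase] at hz
    rw [Finset.mem_insert, Finset.mem_insert, Finset.mem_singleton, not_or, not_or] at hz2
    exact ml z hz.2 hz.1 hz2.1 hz2.2.1 hz2.2.2
  have hf : ∀ z ∈ ({a, b, c} : Finset (Ed 3)), m z = k := by
    intro z hz
    rw [Finset.mem_insert, Finset.mem_insert, Finset.mem_singleton] at hz
    rcases hz with rfl | rfl | rfl
    · exact ma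
    · exact mb
    · exact mc
  have hle : ∀ z ∈ V.erase v, m z ≤ k := by
    intro z hz
    by_cases hz2 : z ∈ ({a, b, c} : Finset (Ed 3))
    · exact (hf z hz2).le
    · exact (hlt z hz hz2).le
  have hmg : m ((1 / 3 : ℝ) • (a + b + c)) = k := by
    rw [map_smul, map_add, map_add, smul_eq_mul, ma, mb, mc]
    ring
  have htV : t ⊆ V.erase v := (hT.mem t ht).1
  have hfil := hl_filter m (fun z hz => hle z (htV hz)) hgt hmg
  have hfilsub : (t.filter fun z => m z = k) ⊆ {a, b, c} := by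
    intro z hz
    rw [Finset.mem_filter] at hz
    by_contra hz2
    exact absurd hz.2 (hlt z (htV hz.1) hz2).ne
  have hft : ({a, b, c} : Finset (Ed 3)) ⊆ t :=
    (C5_sub h hfilsub hfil).trans (Finset.filter_subset _ _)
  have hcard := C5_card h
  have key : ∀ u ∈ T, ({a, b, c} : Finset (Ed 3)) ⊆ u → ∃ x ∈ V.erase v,
      x ∉ ({a, b, c} : Finset (Ed 3)) ∧ insert x ({a, b, c} : Finset (Ed 3)) = u := by
    intro u hu hfu
    obtain ⟨huV, huc, -⟩ := hT.mem u hu
    obtain ⟨x, hx, hxu⟩ := Finset.exists_eq_insert_iff.2 ⟨hfu, by rw [hcard, huc]⟩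
    exact ⟨x, huV (hxu ▸ Finset.mem_insert_self _ _), hx, hxu⟩
  obtain ⟨x, hxV, hxf, hxt⟩ := key t ht hft
  have hxf' := hxf
  rw [Finset.mem_insert, Finset.mem_insert, Finset.mem_singleton, not_or, not_or] at hxf'
  refine ⟨x, (Finset.mem_erase.1 hxV).2, (Finset.mem_erase.1 hxV).1, hxf'.1, hxf'.2.1, hxf'.2.2, ?_, ?_⟩
  · rw [hxt]
    exact ht
  · intro u hu hfu
    obtain ⟨y, hyV, hyf, hyu⟩ := key u hu hfu
    have hxy : y = x := same_side hT hcard (hyu ▸ hu) (hxt ▸ ht) hyf hxf hf (hlt y hyV hyf)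
      (hlt x hxV hxf)
    rw [← hyu, hxy]

private theorem C6_mem4 {v a b c : Ed 3} {α β γ : ℝ} (h1 : 0 ≤ α) (h2 : 0 ≤ β) (h3 : 0 ≤ γ)
    (h4 : α + β + γ ≤ 1) :
    v + (α • (a - v) + β • (b - v) + γ • (c - v)) ∈ hl ({v, a, b, c} : Finset (Ed 3)) := by
  refine conv4 (convex_convexHull ℝ _) (mem_hl ?_) (mem_hl ?_) (mem_hl ?_) (mem_hl ?_) h1 h2 h3 h4
  · simp
  · simp
  · simp
  · simp

/-- `μ = γ / r` is the smallest ratio -/
theorem sk_key {V : Finset (Ed 3)} {v a b c : Ed 3} (h : Sk V v a b c) {x y : Ed 3}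
    {p q r : ℝ} (hr : 0 < r) (h1 : 1 < p + q + r)
    (hx : x - v = p • (a - v) + q • (b - v) + r • (c - v))
    (hy : y ∈ hl ({v, a, b, c, x} : Finset (Ed 3))) {α β γ : ℝ} (hγ : 0 ≤ γ)
    (e : y - v = α • (a - v) + β • (b - v) + γ • (c - v)) (m1 : γ * p ≤ α * r) (m2 : γ * q ≤ β * r) :
    y ∈ hl ({v, x, a, b} : Finset (Ed 3)) := by
  have hμ : 0 ≤ γ / r := div_nonneg hγ hr.le
  have hμr : γ / r * r = γ := div_mul_cancel₀ γ hr.ne'
  have hA : 0 ≤ α - γ / r * p := by
    by_contra hc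
    push Not at hc
    have h2 : (α - γ / r * p) * r < 0 := mul_neg_of_neg_of_pos hc hr
    have h3 : (α - γ / r * p) * r = α * r - (γ / r * r) * p := by ring
    rw [h3, hμr] at h2
    linarith
  have hB : 0 ≤ β - γ / r * q := by
    by_contra hc
    push Not at hc
    have h2 : (β - γ / r * q) * r < 0 := mul_neg_of_neg_of_pos hc hr
    have h3 : (β - γ / r * q) * r = β * r - (γ / r * r) * q := by ring
    rw [h3, hμr] at h2
    linarith
  have e2 : y - v = (γ / r) • (x - v) + (α - γ / r * p) • (a - v) + (β - γ / r * q) • (b - v) := by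
    rw [e, hx]
    have e3 : γ • (c - v) = (γ / r * r) • (c - v) := by rw [hμr]
    rw [e3]
    module
  obtain ⟨n, n1, n2, n3⟩ := sk_fun h 1 1 ((1 - p - q) / r)
  have hw : (1 - p - q) / r ≤ 1 := by
    rw [div_le_one hr]
    linarith
  have hnx : n (x - v) = 1 := by
    rw [hx, map_add, map_add, map_smul, map_smul, map_smul, n1, n2, n3, smul_eq_mul, smul_eq_mul,
      smul_eq_mul, mul_div_cancel₀ _ hr.ne']
    ring
  have hny : n y ≤ n v + 1 := by
    refine le_of_hl n ?_ hy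
    intro u hu
    simp only [Finset.mem_insert, Finset.mem_singleton] at hu
    have hs : ∀ z : Ed 3, n (z - v) ≤ 1 → n z ≤ n v + 1 := by
      intro z hz
      rw [map_sub] at hz
      linarith
    rcases hu with hu | hu | hu | hu | hu
    · rw [hu]
      linarith
    · rw [hu]
      exact hs a n1.le
    · rw [hu]
      exact hs b n2.le
    · rw [hu]
      exact hs c (by rw [n3]; exact hw)
    · rw [hu]
      exact hs x hnx.le
  have hsum : γ / r + (α - γ / r * p) + (β - γ / r * q) ≤ 1 := by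
    have h5 : n (y - v) ≤ 1 := by
      rw [map_sub]
      linarith
    rw [e2, map_add, map_add, map_smul, map_smul, map_smul, n1, n2, hnx, smul_eq_mul, smul_eq_mul,
      smul_eq_mul, mul_one, mul_one, mul_one] at h5
    exact h5
  have e4 : y = v + ((γ / r) • (x - v) + (α - γ / r * p) • (a - v) + (β - γ / r * q) • (b - v)) := by
    rw [← e2]
    abel
  rw [e4]
  exact C6_mem4 hμ hA hB hsum

theorem sk_coef {v a b c x : Ed 3} {p q r : ℝ} (hp : 0 ≤ p) (hq : 0 ≤ q) (hr : 0 ≤ r)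
    (hx : x - v = p • (a - v) + q • (b - v) + r • (c - v)) {y : Ed 3}
    (hy : y ∈ hl ({v, a, b, c, x} : Finset (Ed 3))) :
    ∃ α β γ : ℝ, 0 ≤ α ∧ 0 ≤ β ∧ 0 ≤ γ ∧ y - v = α • (a - v) + β • (b - v) + γ • (c - v) := by
  have hsub : hl ({v, a, b, c, x} : Finset (Ed 3)) ⊆ {y | ∃ α β γ : ℝ, 0 ≤ α ∧ 0 ≤ β ∧ 0 ≤ γ ∧
      y - v = α • (a - v) + β • (b - v) + γ • (c - v)} := by
    refine convexHull_min ?_ ?_
    · intro u hu
      have hu' : u ∈ ({v, a, b, c, x} : Finset (Ed 3)) := by exact_mod_cast hu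
      simp only [Finset.mem_insert, Finset.mem_singleton] at hu'
      rcases hu' with hu | hu | hu | hu | hu
      · refine ⟨0, 0, 0, le_refl _, le_refl _, le_refl _, ?_⟩
        rw [hu]
        module
      · refine ⟨1, 0, 0, zero_le_one, le_refl _, le_refl _, ?_⟩
        rw [hu]
        module
      · refine ⟨0, 1, 0, le_refl _, zero_le_one, le_refl _, ?_⟩
        rw [hu]
        module
      · refine ⟨0, 0, 1, le_refl _, le_refl _, zero_le_one, ?_⟩
        rw [hu]
        module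
      · exact ⟨p, q, r, hp, hq, hr, by rw [hu]; exact hx⟩
    · intro y1 hy1 y2 hy2 s t hs ht hst
      obtain ⟨α1, β1, γ1, a1, b1, c1, e1⟩ := hy1
      obtain ⟨α2, β2, γ2, a2, b2, c2, e2⟩ := hy2
      refine ⟨s * α1 + t * α2, s * β1 + t * β2, s * γ1 + t * γ2, by positivity, by positivity,
        by positivity, ?_⟩
      have e3 : s • y1 + t • y2 - v = s • (y1 - v) + t • (y2 - v) := by
        have e4 : v = (s + t) • v := by rw [hst, one_smul]
        rw [smul_sub, smul_sub]
        nth_rewrite 1 [e4]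
        module
      rw [e3, e1, e2]
      module
  exact hsub hy

theorem sk_split {V : Finset (Ed 3)} {v a b c : Ed 3} (h : Sk V v a b c) :
    hl V ⊆ hl (V.erase v) ∪ hl ({v, a, b, c} : Finset (Ed 3)) := by
  intro q hq
  obtain ⟨haV, hbV, hcV, hav, hbv, hcv⟩ := sk_mem h
  have haE : a ∈ V.erase v := Finset.mem_erase.2 ⟨hav, haV⟩
  have hbE : b ∈ V.erase v := Finset.mem_erase.2 ⟨hbv, hbV⟩
  have hcE : c ∈ V.erase v := Finset.mem_erase.2 ⟨hcv, hcV⟩
  have hq' : q ∈ hl (insert v (V.erase v)) := by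
    rw [Finset.insert_erase h.vV]
    exact hq
  obtain ⟨z, hz, t, ht0, ht1, hqt⟩ := mem_hl_insert ⟨a, haE⟩ hq'
  obtain ⟨k, hk0, hk⟩ := cone_hl h.vert h.vV (hl_mono (Finset.erase_subset v V) hz)
  rw [h.nb, Finset.sum_insert (by simp [h.ab, h.ac]), Finset.sum_insert (by simp [h.bc]),
    Finset.sum_singleton, ← add_assoc] at hk
  by_cases hσ : t * (k a + k b + k c) ≤ 1
  · right
    have e : q = v + ((t * k a) • (a - v) + (t * k b) • (b - v) + (t * k c) • (c - v)) := by
      rw [hqt, hk]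
      module
    rw [e]
    refine C6_mem4 (mul_nonneg ht0 (hk0 a)) (mul_nonneg ht0 (hk0 b)) (mul_nonneg ht0 (hk0 c)) ?_
    linarith
  · left
    rw [not_le] at hσ
    have hS0 : 0 ≤ k a + k b + k c := add_nonneg (add_nonneg (hk0 a) (hk0 b)) (hk0 c)
    have hS1 : 1 < k a + k b + k c := by
      have := mul_le_mul_of_nonneg_right ht1 hS0
      linarith
    have hSp : 0 < k a + k b + k c := by linarith
    have hconv : Convex ℝ (hl (V.erase v)) := convex_convexHull ℝ _
    have hi0 : 0 ≤ (k a + k b + k c)⁻¹ := inv_nonneg.2 hS0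
    have hi1 : (k a + k b + k c)⁻¹ < 1 := inv_lt_one_of_one_lt₀ hS1
    have hSi : (k a + k b + k c) * (k a + k b + k c)⁻¹ = 1 := mul_inv_cancel₀ hSp.ne'
    have hq0 : v + (k a + k b + k c)⁻¹ • (z - v) ∈ hl (V.erase v) := by
      have h3 := hconv.sum_mem (t := (Finset.univ : Finset (Fin 3)))
        (w := ![(k a + k b + k c)⁻¹ * k a, (k a + k b + k c)⁻¹ * k b, (k a + k b + k c)⁻¹ * k c])
        (z := ![a, b, c]) ?_ ?_ ?_
      · rw [Fin.sum_univ_three] at h3
        have e : v + (k a + k b + k c)⁻¹ • (z - v) = ((k a + k b + k c)⁻¹ * k a) • a +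
            ((k a + k b + k c)⁻¹ * k b) • b + ((k a + k b + k c)⁻¹ * k c) • c := by
          have e1 : v = ((k a + k b + k c)⁻¹ * (k a + k b + k c)) • v := by
            rw [mul_comm, hSi, one_smul]
          rw [hk]
          nth_rewrite 1 [e1]
          module
        rw [e]
        exact h3
      · intro i _
        fin_cases i
        · exact mul_nonneg hi0 (hk0 a)
        · exact mul_nonneg hi0 (hk0 b)
        · exact mul_nonneg hi0 (hk0 c)
      · rw [Fin.sum_univ_three]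
        show (k a + k b + k c)⁻¹ * k a + (k a + k b + k c)⁻¹ * k b + (k a + k b + k c)⁻¹ * k c = 1
        rw [← hSi]
        ring
      · intro i _
        fin_cases i
        · exact mem_hl haE
        · exact mem_hl hbE
        · exact mem_hl hcE
    have htS : (k a + k b + k c)⁻¹ ≤ t := by
      rw [inv_le_iff_one_le_mul₀ hSp]
      linarith
    have hd : 0 < 1 - (k a + k b + k c)⁻¹ := by linarith
    have h4 := hconv hq0 hz (a := (1 - t) / (1 - (k a + k b + k c)⁻¹))
      (b := (t - (k a + k b + k c)⁻¹) / (1 - (k a + k b + k c)⁻¹))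
      (div_nonneg (by linarith) hd.le) (div_nonneg (by linarith) hd.le) (by
        rw [← add_div, div_eq_one_iff_eq hd.ne']
        ring)
    have e : q = ((1 - t) / (1 - (k a + k b + k c)⁻¹)) • (v + (k a + k b + k c)⁻¹ • (z - v)) +
        ((t - (k a + k b + k c)⁻¹) / (1 - (k a + k b + k c)⁻¹)) • z := by
      have e1 : (1 - t) / (1 - (k a + k b + k c)⁻¹) + (t - (k a + k b + k c)⁻¹) /
          (1 - (k a + k b + k c)⁻¹) = 1 := by
        rw [← add_div, div_eq_one_iff_eq hd.ne']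
        ring
      have e2 : (1 - t) / (1 - (k a + k b + k c)⁻¹) * (k a + k b + k c)⁻¹ +
          (t - (k a + k b + k c)⁻¹) / (1 - (k a + k b + k c)⁻¹) = t := by
        rw [div_mul_eq_mul_div, ← add_div, div_eq_iff hd.ne']
        ring
      have e3 : ((1 - t) / (1 - (k a + k b + k c)⁻¹)) • (v + (k a + k b + k c)⁻¹ • (z - v)) +
          ((t - (k a + k b + k c)⁻¹) / (1 - (k a + k b + k c)⁻¹)) • z =
          ((1 - t) / (1 - (k a + k b + k c)⁻¹) + (t - (k a + k b + k c)⁻¹) /
            (1 - (k a + k b + k c)⁻¹)) • v +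
          ((1 - t) / (1 - (k a + k b + k c)⁻¹) * (k a + k b + k c)⁻¹ +
            (t - (k a + k b + k c)⁻¹) / (1 - (k a + k b + k c)⁻¹)) • (z - v) := by
        module
      rw [e3, e1, e2, one_smul, hqt]
    rw [e]
    exact h4

end Pool.Agent.LibCor47
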