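import Pool.Agent.LibCor47.E
import Pool.Agent.LibCor47.T0
import Pool.Agent.LibCor47.N
import Pool.Agent.LibCor47.Q
import Pool.Agent.LibTet88.Z2
import Pool.Agent.LibTet23.F1

/-!
Cor47: assembly. A vertex on exactly three edges can be added to a polytope with a Hamiltonian tetrahedralization.
-/

set_option autoImplicit false

namespace Pool.Agent.LibCor47

open Finset Pool.Agent.LibPol19 Pool.Agent.LibTet88 Pool.Agent.LibTet23
open scoped Classical

private theorem M_perm2 (x a b c : Ed 3) : ({x, b, c, a} : Finset (Ed 3)) = {x, a, b, c} := by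
  ext z
  simp only [mem_insert, mem_singleton]
  tauto

private theorem M_rot2 (a b c : Ed 3) : ({b, c, a} : Finset (Ed 3)) = {a, b, c} := by
  ext z
  simp only [mem_insert, mem_singleton]
  tauto

private theorem M_core {V : Finset (Ed 3)} {v : Ed 3} {T N : Finset (Finset (Ed 3))} (hT : TetD (V.erase v) T)
    (t0 W W' : Finset (Ed 3))
    (m : ∀ n ∈ N, n ⊆ V ∧ n.card = 4 ∧ AffineIndependent ℝ (fun x : n => (x.1 : Ed 3)))
    (hs : hl V ⊆ hl (V.erase v) ∪ hl W) (w1 : t0 ⊆ W') (w2 : W ⊆ W')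
    (h3 : ∀ y ∈ hl W', ∃ n ∈ N, y ∈ hl n)
    (nn : ∀ n ∈ N, ∀ n' ∈ N, hl n ∩ hl n' ⊆ hl (n ∩ n'))
    (no : ∀ n ∈ N, ∀ t ∈ T, t ≠ t0 → hl n ∩ hl t ⊆ hl (n ∩ t)) :
    TetD V (T.erase t0 ∪ N) := by
  have hmem : ∀ t : Finset (Ed 3), t ∈ T.erase t0 ∪ N ↔ (t ≠ t0 ∧ t ∈ T) ∨ t ∈ N := by
    intro t
    rw [mem_union, mem_erase]
  refine ⟨?_, ?_, ?_⟩
  · intro t ht
    rw [hmem] at ht
    rcases ht with ⟨-, ht⟩ | ht
    · obtain ⟨g1, g2, g3⟩ := hT.mem t ht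
      exact ⟨g1.trans (erase_subset v V), g2, g3⟩
    · exact m t ht
  · intro y hy
    have hthree : y ∈ hl W' → y ∈ ⋃ t ∈ T.erase t0 ∪ N, hl t := by
      intro hy
      obtain ⟨n, hn, hyn⟩ := h3 y hy
      exact Set.mem_iUnion₂.2 ⟨n, (hmem n).2 (Or.inr hn), hyn⟩
    rcases hs hy with h4 | h4
    · obtain ⟨t, ht, hyt⟩ := Set.mem_iUnion₂.1 (hT.cover h4)
      by_cases hte : t = t0
      · refine hthree (hl_mono ?_ hyt)
        rw [hte]
        exact w1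
      · exact Set.mem_iUnion₂.2 ⟨t, (hmem t).2 (Or.inl ⟨hte, ht⟩), hyt⟩
    · exact hthree (hl_mono w2 h4)
  · intro t ht u hu'
    rw [hmem] at ht hu'
    rcases ht with ⟨ht1, ht2⟩ | ht
    · rcases hu' with ⟨hu1, hu2⟩ | hu'
      · exact hT.inter t ht2 u hu2
      · have h5 := no u hu' t ht2 ht1
        rw [Set.inter_comm, inter_comm]
        exact h5
    · rcases hu' with ⟨hu1, hu2⟩ | hu'
      · exact no t ht u hu2 hu1
      · exact nn t ht u hu'

private theorem M_sub {V : Finset (Ed 3)} {v x a b : Ed 3} (hv : v ∈ V) (hx : x ∈ V) (ha : a ∈ V)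
    (hb : b ∈ V) : ({v, x, a, b} : Finset (Ed 3)) ⊆ V := by
  intro z
  simp only [mem_insert, mem_singleton]
  rintro (h | h | h | h)
  · rw [h]; exact hv
  · rw [h]; exact hx
  · rw [h]; exact ha
  · rw [h]; exact hb

private theorem M_w1 (v x a b c : Ed 3) : ({x, a, b, c} : Finset (Ed 3)) ⊆ {v, a, b, c, x} := by
  intro z
  simp only [mem_insert, mem_singleton]
  tauto

private theorem M_w2 (v x a b c : Ed 3) : ({v, a, b, c} : Finset (Ed 3)) ⊆ {v, a, b, c, x} := by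
  intro z
  simp only [mem_insert, mem_singleton]
  tauto

private theorem M_nn (v x a b c : Ed 3) :
    hl ({v, x, b} : Finset (Ed 3)) ⊆ hl (({v, x, a, b} : Finset (Ed 3)) ∩ {v, x, b, c}) := by
  refine hl_mono ?_
  intro z
  simp only [mem_inter, mem_insert, mem_singleton]
  tauto

private theorem M_symm {n n' : Finset (Ed 3)} (h : hl n ∩ hl n' ⊆ hl (n ∩ n')) :
    hl n' ∩ hl n ⊆ hl (n' ∩ n) := by
  rw [Set.inter_comm, inter_comm]
  exact h

private theorem M_self (n : Finset (Ed 3)) : hl n ∩ hl n ⊆ hl (n ∩ n) := by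
  rw [Set.inter_self, inter_self]

private theorem M_core3 {V : Finset (Ed 3)} {v : Ed 3} {T : Finset (Finset (Ed 3))} (hT : TetD (V.erase v) T)
    (t0 N1 N2 N3 W W' : Finset (Ed 3))
    (m1 : N1 ⊆ V ∧ N1.card = 4 ∧ AffineIndependent ℝ (fun x : N1 => (x.1 : Ed 3)))
    (m2 : N2 ⊆ V ∧ N2.card = 4 ∧ AffineIndependent ℝ (fun x : N2 => (x.1 : Ed 3)))
    (m3 : N3 ⊆ V ∧ N3.card = 4 ∧ AffineIndependent ℝ (fun x : N3 => (x.1 : Ed 3)))
    (hs : hl V ⊆ hl (V.erase v) ∪ hl W) (w1 : t0 ⊆ W') (w2 : W ⊆ W')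
    (h3 : ∀ y ∈ hl W', y ∈ hl N1 ∨ y ∈ hl N2 ∨ y ∈ hl N3)
    (n12 : hl N1 ∩ hl N2 ⊆ hl (N1 ∩ N2)) (n23 : hl N2 ∩ hl N3 ⊆ hl (N2 ∩ N3))
    (n31 : hl N3 ∩ hl N1 ⊆ hl (N3 ∩ N1))
    (o1 : ∀ t ∈ T, t ≠ t0 → hl N1 ∩ hl t ⊆ hl (N1 ∩ t))
    (o2 : ∀ t ∈ T, t ≠ t0 → hl N2 ∩ hl t ⊆ hl (N2 ∩ t))
    (o3 : ∀ t ∈ T, t ≠ t0 → hl N3 ∩ hl t ⊆ hl (N3 ∩ t)) :
    TetD V (T.erase t0 ∪ {N1, N2, N3}) := by
  refine M_core hT t0 W W' ?_ hs w1 w2 ?_ ?_ ?_
  · intro n hn
    simp only [mem_insert, mem_singleton] at hn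
    rcases hn with rfl | rfl | rfl
    · exact m1
    · exact m2
    · exact m3
  · intro y hy
    rcases h3 y hy with h4 | h4 | h4
    · exact ⟨N1, by simp, h4⟩
    · exact ⟨N2, by simp, h4⟩
    · exact ⟨N3, by simp, h4⟩
  · intro n hn n' hn'
    simp only [mem_insert, mem_singleton] at hn hn'
    rcases hn with rfl | rfl | rfl
    · rcases hn' with rfl | rfl | rfl
      · exact M_self _
      · exact n12
      · exact M_symm n31
    · rcases hn' with rfl | rfl | rfl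
      · exact M_symm n12
      · exact M_self _
      · exact n23
    · rcases hn' with rfl | rfl | rfl
      · exact n31
      · exact M_symm n23
      · exact M_self _
  · intro n hn t ht hne
    simp only [mem_insert, mem_singleton] at hn
    rcases hn with rfl | rfl | rfl
    · exact o1 t ht hne
    · exact o2 t ht hne
    · exact o3 t ht hne

private theorem M_core2 {V : Finset (Ed 3)} {v : Ed 3} {T : Finset (Finset (Ed 3))} (hT : TetD (V.erase v) T)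
    (t0 N1 N2 W W' : Finset (Ed 3))
    (m1 : N1 ⊆ V ∧ N1.card = 4 ∧ AffineIndependent ℝ (fun x : N1 => (x.1 : Ed 3)))
    (m2 : N2 ⊆ V ∧ N2.card = 4 ∧ AffineIndependent ℝ (fun x : N2 => (x.1 : Ed 3)))
    (hs : hl V ⊆ hl (V.erase v) ∪ hl W) (w1 : t0 ⊆ W') (w2 : W ⊆ W')
    (h3 : ∀ y ∈ hl W', y ∈ hl N1 ∨ y ∈ hl N2)
    (n12 : hl N1 ∩ hl N2 ⊆ hl (N1 ∩ N2))
    (o1 : ∀ t ∈ T, t ≠ t0 → hl N1 ∩ hl t ⊆ hl (N1 ∩ t))
    (o2 : ∀ t ∈ T, t ≠ t0 → hl N2 ∩ hl t ⊆ hl (N2 ∩ t)) :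
    TetD V (T.erase t0 ∪ {N1, N2}) := by
  refine M_core hT t0 W W' ?_ hs w1 w2 ?_ ?_ ?_
  · intro n hn
    simp only [mem_insert, mem_singleton] at hn
    rcases hn with rfl | rfl
    · exact m1
    · exact m2
  · intro y hy
    rcases h3 y hy with h4 | h4
    · exact ⟨N1, by simp, h4⟩
    · exact ⟨N2, by simp, h4⟩
  · intro n hn n' hn'
    simp only [mem_insert, mem_singleton] at hn hn'
    rcases hn with rfl | rfl
    · rcases hn' with rfl | rfl
      · exact M_self _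
      · exact n12
    · rcases hn' with rfl | rfl
      · exact M_symm n12
      · exact M_self _
  · intro n hn t ht hne
    simp only [mem_insert, mem_singleton] at hn
    rcases hn with rfl | rfl
    · exact o1 t ht hne
    · exact o2 t ht hne

/-- covering, with the choice of the smallest ratio -/
private theorem M_cov {V : Finset (Ed 3)} {v a b c : Ed 3} (h : Sk V v a b c) {x : Ed 3} {p q r : ℝ}
    (hp : 0 < p) (hq : 0 < q) (hr : 0 ≤ r) (h1 : 1 < p + q + r)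
    (e : x - v = p • (a - v) + q • (b - v) + r • (c - v)) {y : Ed 3}
    (hy : y ∈ hl ({v, a, b, c, x} : Finset (Ed 3))) :
    (0 < r ∧ y ∈ hl ({v, x, a, b} : Finset (Ed 3))) ∨ y ∈ hl ({v, x, b, c} : Finset (Ed 3)) ∨
      y ∈ hl ({v, x, c, a} : Finset (Ed 3)) := by
  obtain ⟨α, β, γ, hα, hβ, hγ, ey⟩ := sk_coef hp.le hq.le hr e hy
  have hy2 : y ∈ hl ({v, b, c, a, x} : Finset (Ed 3)) := by
    refine hl_mono ?_ hy
    intro u hu
    simp only [Finset.mem_insert, Finset.mem_singleton] at hu ⊢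
    tauto
  have hy3 : y ∈ hl ({v, c, a, b, x} : Finset (Ed 3)) := by
    refine hl_mono ?_ hy
    intro u hu
    simp only [Finset.mem_insert, Finset.mem_singleton] at hu ⊢
    tauto
  -- compare `γ / r` with the others
  by_cases hc : 0 < r ∧ γ * p ≤ α * r ∧ γ * q ≤ β * r
  · exact Or.inl ⟨hc.1, sk_key h hc.1 h1 e hy hγ ey hc.2.1 hc.2.2⟩
  · right
    by_cases hab : α * q ≤ β * p
    · left
      refine sk_key (sk_rot h) (p := q) (q := r) (r := p) hp (by linarith) (by rw [e]; abel) hy2 hα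
        (α := β) (β := γ) (by rw [ey]; abel) hab ?_
      by_contra h5
      push Not at h5
      have hr0 : 0 < r := by
        rcases hr.lt_or_eq with h6 | h6
        · exact h6
        · exfalso
          rw [← h6, mul_zero] at h5
          nlinarith [mul_nonneg hγ hp.le]
      apply hc
      refine ⟨hr0, h5.le, ?_⟩
      -- `γ q ≤ β r`: `γ p < α r`, `α q ≤ β p`
      by_contra h7
      push Not at h7
      have h8 : γ * p * q ≤ α * r * q := mul_le_mul_of_nonneg_right h5.le hq.le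
      have h9 : α * q * r ≤ β * p * r := mul_le_mul_of_nonneg_right hab hr
      have h10 : β * r * p < γ * q * p := mul_lt_mul_of_pos_right h7 hp
      linarith [(by ring : γ * p * q = γ * q * p), (by ring : α * r * q = α * q * r),
        (by ring : β * p * r = β * r * p)]
    · right
      push Not at hab
      refine sk_key (sk_rot (sk_rot h)) (p := r) (q := p) (r := q) hq (by linarith) (by rw [e]; abel) hy3 hβ
        (α := γ) (β := α) (by rw [ey]; abel) ?_ hab.le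
      by_contra h5
      push Not at h5
      have hr0 : 0 < r := by
        rcases hr.lt_or_eq with h6 | h6
        · exact h6
        · exfalso
          rw [← h6, mul_zero] at h5
          nlinarith [mul_nonneg hγ hq.le]
      apply hc
      refine ⟨hr0, ?_, h5.le⟩
      by_contra h7
      push Not at h7
      have h8 : γ * q * p ≤ β * r * p := mul_le_mul_of_nonneg_right h5.le hp.le
      have h9 : β * p * r ≤ α * q * r := mul_le_mul_of_nonneg_right hab.le hr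
      have h10 : α * r * q < γ * p * q := mul_lt_mul_of_pos_right h7 hq
      linarith [(by ring : γ * p * q = γ * q * p), (by ring : α * r * q = α * q * r),
        (by ring : β * p * r = β * r * p)]

private theorem M_no1 {V : Finset (Ed 3)} {v a b c : Ed 3} (h : Sk V v a b c) {T : Finset (Finset (Ed 3))}
    (hT : TetD (V.erase v) T) {x : Ed 3} (hx : x ∈ V) (xv : x ≠ v)
    (xa : x ≠ a) (xb : x ≠ b) (xc : x ≠ c) {p q r : ℝ} (hp : 0 < p) (hq : 0 < q) (hr : 0 < r)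
    (h1 : 1 < p + q + r) (e : x - v = p • (a - v) + q • (b - v) + r • (c - v))
    (h0 : ({x, a, b, c} : Finset (Ed 3)) ∈ T)
    (hu : ∀ t ∈ T, ({a, b, c} : Finset (Ed 3)) ⊆ t → t = {x, a, b, c}) (t : Finset (Ed 3)) (ht : t ∈ T)
    (hne : t ≠ {x, a, b, c}) :
    hl ({v, x, a, b} : Finset (Ed 3)) ∩ hl t ⊆ hl (({v, x, a, b} : Finset (Ed 3)) ∩ t) :=
  sk_no h hT hx xv xa xb xc hp.le hq.le hr (Or.inl hp) h1 e h0 hu
    (fun h5 => absurd h5 hp.ne') (fun h5 => absurd h5 hq.ne') ht hne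

private theorem M_no2 {V : Finset (Ed 3)} {v a b c : Ed 3} (h : Sk V v a b c) {T : Finset (Finset (Ed 3))}
    (hT : TetD (V.erase v) T) {x : Ed 3} (hx : x ∈ V) (xv : x ≠ v)
    (xa : x ≠ a) (xb : x ≠ b) (xc : x ≠ c) {p q r : ℝ} (hp : 0 < p) (hq : 0 < q) (hr : 0 < r)
    (h1 : 1 < p + q + r) (e : x - v = p • (a - v) + q • (b - v) + r • (c - v))
    (h0 : ({x, a, b, c} : Finset (Ed 3)) ∈ T)
    (hu : ∀ t ∈ T, ({a, b, c} : Finset (Ed 3)) ⊆ t → t = {x, a, b, c}) (t : Finset (Ed 3)) (ht : t ∈ T)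
    (hne : t ≠ {x, a, b, c}) :
    hl ({v, x, b, c} : Finset (Ed 3)) ∩ hl t ⊆ hl (({v, x, b, c} : Finset (Ed 3)) ∩ t) := by
  have e2 := M_perm2 x a b c
  have f2 := M_rot2 a b c
  rw [← e2] at h0 hne
  have hu2 : ∀ t ∈ T, ({b, c, a} : Finset (Ed 3)) ⊆ t → t = {x, b, c, a} := by
    intro t ht hs
    rw [f2] at hs
    rw [e2]
    exact hu t ht hs
  have ee : x - v = q • (b - v) + r • (c - v) + p • (a - v) := by rw [e]; abel
  exact M_no1 (sk_rot h) hT hx xv xb xc xa hq hr hp (by linarith) ee h0 hu2 t ht hne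

private theorem M_no3 {V : Finset (Ed 3)} {v a b c : Ed 3} (h : Sk V v a b c) {T : Finset (Finset (Ed 3))}
    (hT : TetD (V.erase v) T) {x : Ed 3} (hx : x ∈ V) (xv : x ≠ v)
    (xa : x ≠ a) (xb : x ≠ b) (xc : x ≠ c) {p q r : ℝ} (hp : 0 < p) (hq : 0 < q) (hr : 0 < r)
    (h1 : 1 < p + q + r) (e : x - v = p • (a - v) + q • (b - v) + r • (c - v))
    (h0 : ({x, a, b, c} : Finset (Ed 3)) ∈ T)
    (hu : ∀ t ∈ T, ({a, b, c} : Finset (Ed 3)) ⊆ t → t = {x, a, b, c}) (t : Finset (Ed 3)) (ht : t ∈ T)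
    (hne : t ≠ {x, a, b, c}) :
    hl ({v, x, c, a} : Finset (Ed 3)) ∩ hl t ⊆ hl (({v, x, c, a} : Finset (Ed 3)) ∩ t) := by
  have e2 := (M_perm2 x b c a).trans (M_perm2 x a b c)
  have f2 := (M_rot2 b c a).trans (M_rot2 a b c)
  rw [← e2] at h0 hne
  have hu2 : ∀ t ∈ T, ({c, a, b} : Finset (Ed 3)) ⊆ t → t = {x, c, a, b} := by
    intro t ht hs
    rw [f2] at hs
    rw [e2]
    exact hu t ht hs
  have ee : x - v = r • (c - v) + p • (a - v) + q • (b - v) := by rw [e]; abel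
  exact M_no1 (sk_rot (sk_rot h)) hT hx xv xc xa xb hr hp hq (by linarith) ee h0 hu2 t ht hne

/-- the general position case -/
private theorem M_pos {V : Finset (Ed 3)} {v a b c : Ed 3} (h : Sk V v a b c) {T : Finset (Finset (Ed 3))}
    (hT : TetD (V.erase v) T) {x : Ed 3} (hx : x ∈ V) (xv : x ≠ v)
    (xa : x ≠ a) (xb : x ≠ b) (xc : x ≠ c) {p q r : ℝ} (hp : 0 < p) (hq : 0 < q) (hr : 0 < r)
    (h1 : 1 < p + q + r) (e : x - v = p • (a - v) + q • (b - v) + r • (c - v))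
    (h0 : ({x, a, b, c} : Finset (Ed 3)) ∈ T)
    (hu : ∀ t ∈ T, ({a, b, c} : Finset (Ed 3)) ⊆ t → t = {x, a, b, c})
    (ha : a ∈ V) (hb : b ∈ V) (hc : c ∈ V) :
    TetD V (T.erase {x, a, b, c} ∪ {{v, x, a, b}, {v, x, b, c}, {v, x, c, a}}) := by
  have h2 := sk_rot h
  have h3 := sk_rot h2
  have e2 : x - v = q • (b - v) + r • (c - v) + p • (a - v) := by rw [e]; abel
  have e3 : x - v = r • (c - v) + p • (a - v) + q • (b - v) := by rw [e]; abel
  exact M_core3 hT {x, a, b, c} {v, x, a, b} {v, x, b, c} {v, x, c, a} {v, a, b, c} {v, a, b, c, x}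
    ⟨M_sub h.vV hx ha hb, sk_ind h hr e⟩
    ⟨M_sub h.vV hx hb hc, sk_ind h2 hp e2⟩
    ⟨M_sub h.vV hx hc ha, sk_ind h3 hq e3⟩
    (sk_split h) (M_w1 v x a b c) (M_w2 v x a b c)
    (fun y hy => (M_cov h hp hq hr.le h1 e hy).imp (fun h4 => h4.2) id)
    ((sk_nn h hp hr e).trans (M_nn v x a b c))
    ((sk_nn h2 hq hp e2).trans (M_nn v x b c a))
    ((sk_nn h3 hr hq e3).trans (M_nn v x c a b))
    (M_no1 h hT hx xv xa xb xc hp hq hr h1 e h0 hu)
    (M_no2 h hT hx xv xa xb xc hp hq hr h1 e h0 hu) (M_no3 h hT hx xv xa xb xc hp hq hr h1 e h0 hu)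

/-- `x` is in the plane of `v, a, b` -/
private theorem M_e {V : Finset (Ed 3)} {v a b c : Ed 3} (h : Sk V v a b c) {T : Finset (Finset (Ed 3))}
    (hT : TetD (V.erase v) T) {x : Ed 3} {p q : ℝ} (h1 : 1 < p + q)
    (e : x - v = p • (a - v) + q • (b - v) + (0 : ℝ) • (c - v))
    (h0 : ({x, a, b, c} : Finset (Ed 3)) ∈ T) (t : Finset (Ed 3)) (ht : t ∈ T) (hat : a ∈ t) (hbt : b ∈ t) :
    t = {x, a, b, c} := by
  have e2 := (M_perm2 x b c a).trans (M_perm2 x a b c)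
  rw [← e2] at h0 ⊢
  exact sk_edge (sk_rot (sk_rot h)) hT h1 (x := x) (by rw [e, zero_smul, add_zero]) h0 ht hat hbt

private theorem M_z1 {V : Finset (Ed 3)} {v a b c : Ed 3} (h : Sk V v a b c) {T : Finset (Finset (Ed 3))}
    (hT : TetD (V.erase v) T) {x : Ed 3} (hx : x ∈ V) (xv : x ≠ v)
    (xa : x ≠ a) (xb : x ≠ b) (xc : x ≠ c) {p q : ℝ} (hp : 0 < p) (hq : 0 < q)
    (h1 : 1 < p + q) (e : x - v = p • (a - v) + q • (b - v) + (0 : ℝ) • (c - v))
    (h0 : ({x, a, b, c} : Finset (Ed 3)) ∈ T)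
    (hu : ∀ t ∈ T, ({a, b, c} : Finset (Ed 3)) ⊆ t → t = {x, a, b, c})
    (hE : ∀ t ∈ T, a ∈ t → b ∈ t → t = {x, a, b, c}) (t : Finset (Ed 3)) (ht : t ∈ T)
    (hne : t ≠ {x, a, b, c}) :
    hl ({v, x, b, c} : Finset (Ed 3)) ∩ hl t ⊆ hl (({v, x, b, c} : Finset (Ed 3)) ∩ t) := by
  have e2 := M_perm2 x a b c
  have f2 := M_rot2 a b c
  rw [← e2] at h0 hne
  have hu2 : ∀ t ∈ T, ({b, c, a} : Finset (Ed 3)) ⊆ t → t = {x, b, c, a} := by
    intro t ht hs
    rw [f2] at hs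
    rw [e2]
    exact hu t ht hs
  have hE2 : ∀ t ∈ T, a ∈ t → b ∈ t → t = {x, b, c, a} := by
    intro t ht h3 h4
    rw [e2]
    exact hE t ht h3 h4
  have ee : x - v = q • (b - v) + (0 : ℝ) • (c - v) + p • (a - v) := by rw [e]; abel
  exact sk_no (sk_rot h) hT hx xv xb xc xa hq.le le_rfl hp (Or.inl hq) (by linarith) ee h0 hu2
    (fun h5 => absurd h5 hq.ne') (fun _ => hE2) ht hne

private theorem M_z2 {V : Finset (Ed 3)} {v a b c : Ed 3} (h : Sk V v a b c) {T : Finset (Finset (Ed 3))}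
    (hT : TetD (V.erase v) T) {x : Ed 3} (hx : x ∈ V) (xv : x ≠ v)
    (xa : x ≠ a) (xb : x ≠ b) (xc : x ≠ c) {p q : ℝ} (hp : 0 < p) (hq : 0 < q)
    (h1 : 1 < p + q) (e : x - v = p • (a - v) + q • (b - v) + (0 : ℝ) • (c - v))
    (h0 : ({x, a, b, c} : Finset (Ed 3)) ∈ T)
    (hu : ∀ t ∈ T, ({a, b, c} : Finset (Ed 3)) ⊆ t → t = {x, a, b, c})
    (hE : ∀ t ∈ T, a ∈ t → b ∈ t → t = {x, a, b, c}) (t : Finset (Ed 3)) (ht : t ∈ T)
    (hne : t ≠ {x, a, b, c}) :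
    hl ({v, x, c, a} : Finset (Ed 3)) ∩ hl t ⊆ hl (({v, x, c, a} : Finset (Ed 3)) ∩ t) := by
  have e2 := (M_perm2 x b c a).trans (M_perm2 x a b c)
  have f2 := (M_rot2 b c a).trans (M_rot2 a b c)
  rw [← e2] at h0 hne
  have hu2 : ∀ t ∈ T, ({c, a, b} : Finset (Ed 3)) ⊆ t → t = {x, c, a, b} := by
    intro t ht hs
    rw [f2] at hs
    rw [e2]
    exact hu t ht hs
  have hE2 : ∀ t ∈ T, a ∈ t → b ∈ t → t = {x, c, a, b} := by
    intro t ht h3 h4
    rw [e2]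
    exact hE t ht h3 h4
  have ee : x - v = (0 : ℝ) • (c - v) + p • (a - v) + q • (b - v) := by rw [e]; abel
  exact sk_no (sk_rot (sk_rot h)) hT hx xv xc xa xb le_rfl hp.le hq (Or.inr hp) (by linarith) ee h0 hu2
    (fun _ => hE2) (fun h5 => absurd h5 hp.ne') ht hne

private theorem M_zero {V : Finset (Ed 3)} {v a b c : Ed 3} (h : Sk V v a b c) {T : Finset (Finset (Ed 3))}
    (hT : TetD (V.erase v) T) {x : Ed 3} (hx : x ∈ V) (xv : x ≠ v)
    (xa : x ≠ a) (xb : x ≠ b) (xc : x ≠ c) {p q : ℝ} (hp : 0 < p) (hq : 0 < q)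
    (h1 : 1 < p + q) (e : x - v = p • (a - v) + q • (b - v) + (0 : ℝ) • (c - v))
    (h0 : ({x, a, b, c} : Finset (Ed 3)) ∈ T)
    (hu : ∀ t ∈ T, ({a, b, c} : Finset (Ed 3)) ⊆ t → t = {x, a, b, c})
    (hE : ∀ t ∈ T, a ∈ t → b ∈ t → t = {x, a, b, c})
    (ha : a ∈ V) (hb : b ∈ V) (hc : c ∈ V) :
    TetD V (T.erase {x, a, b, c} ∪ {{v, x, b, c}, {v, x, c, a}}) := by
  have h2 := sk_rot h
  have h3 := sk_rot h2
  have e2 : x - v = q • (b - v) + (0 : ℝ) • (c - v) + p • (a - v) := by rw [e]; abel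
  have e3 : x - v = (0 : ℝ) • (c - v) + p • (a - v) + q • (b - v) := by rw [e]; abel
  have hc3 : ∀ y ∈ hl ({v, a, b, c, x} : Finset (Ed 3)), y ∈ hl ({v, x, b, c} : Finset (Ed 3)) ∨
      y ∈ hl ({v, x, c, a} : Finset (Ed 3)) := by
    intro y hy
    rcases M_cov h hp hq le_rfl (by linarith) e hy with h4 | h4
    · exact absurd h4.1 (lt_irrefl 0)
    · exact h4
  exact M_core2 hT {x, a, b, c} {v, x, b, c} {v, x, c, a} {v, a, b, c} {v, a, b, c, x}
    ⟨M_sub h.vV hx hb hc, sk_ind h2 hp e2⟩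
    ⟨M_sub h.vV hx hc ha, sk_ind h3 hq e3⟩
    (sk_split h) (M_w1 v x a b c) (M_w2 v x a b c) hc3
    ((sk_nn h2 hq hp e2).trans (M_nn v x b c a)) (M_z1 h hT hx xv xa xb xc hp hq h1 e h0 hu hE)
    (M_z2 h hT hx xv xa xb xc hp hq h1 e h0 hu hE)

private theorem M_posHP {V : Finset (Ed 3)} {v a b c : Ed 3} (h : Sk V v a b c) {T : Finset (Finset (Ed 3))}
    (hT : TetD (V.erase v) T) (hP : HP T) {x : Ed 3} (hx : x ∈ V) (xv : x ≠ v)
    (xa : x ≠ a) (xb : x ≠ b) (xc : x ≠ c) {p q r : ℝ} (hp : 0 < p) (hq : 0 < q) (hr : 0 < r)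
    (h1 : 1 < p + q + r) (e : x - v = p • (a - v) + q • (b - v) + r • (c - v))
    (h0 : ({x, a, b, c} : Finset (Ed 3)) ∈ T)
    (hu : ∀ t ∈ T, ({a, b, c} : Finset (Ed 3)) ⊆ t → t = {x, a, b, c}) :
    ∃ T', TetD V T' ∧ HP T' := by
  obtain ⟨ha, hb, hc, av, bv, cv⟩ := sk_mem h
  have hP' := stk_path hT (notMem_erase v V) hP h0 xv.symm av.symm bv.symm cv.symm hu
  have hD := M_pos h hT hx xv xa xb xc hp hq hr h1 e h0 hu ha hb hc
  exact ⟨_, hD, hP'⟩

private theorem M_zeroHP {V : Finset (Ed 3)} {v a b c : Ed 3} (h : Sk V v a b c) {T : Finset (Finset (Ed 3))}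
    (hT : TetD (V.erase v) T) (hP : HP T) {x : Ed 3} (hx : x ∈ V) (xv : x ≠ v)
    (xa : x ≠ a) (xb : x ≠ b) (xc : x ≠ c) {p q : ℝ} (hp : 0 < p) (hq : 0 < q)
    (h1 : 1 < p + q) (e : x - v = p • (a - v) + q • (b - v) + (0 : ℝ) • (c - v))
    (h0 : ({x, a, b, c} : Finset (Ed 3)) ∈ T)
    (hu : ∀ t ∈ T, ({a, b, c} : Finset (Ed 3)) ⊆ t → t = {x, a, b, c}) :
    ∃ T', TetD V T' ∧ HP T' := by
  obtain ⟨ha, hb, hc, av, bv, cv⟩ := sk_mem h
  have hE := M_e h hT h1 e h0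
  have hP' := sk_path hT (notMem_erase v V) hP h0 hE
  have hD := M_zero h hT hx xv xa xb xc hp hq h1 e h0 hu hE ha hb hc
  exact ⟨_, hD, hP'⟩

theorem corner {V : Finset (Ed 3)} {v a b c : Ed 3} (h : Sk V v a b c) {T : Finset (Finset (Ed 3))}
    (hT : TetD (V.erase v) T) (hP : HP T) : ∃ T', TetD V T' ∧ HP T' := by
  obtain ⟨x, hx, xv, xa, xb, xc, h0, hu⟩ := sk_t0 h hT
  obtain ⟨p, q, r, hp, hq, hr, h1, e, c1, c2, c3⟩ := sk_pos h hx xv xa xb xc
  have q2 := M_perm2 x a b c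
  have q3 : ({x, c, a, b} : Finset (Ed 3)) = {x, a, b, c} := (M_perm2 x b c a).trans q2
  have r2 := M_rot2 a b c
  have r3 : ({c, a, b} : Finset (Ed 3)) = {a, b, c} := (M_rot2 b c a).trans r2
  by_cases zr : r = 0
  · have hp' : 0 < p := by
      rcases c3 with h5 | h5
      · exact absurd zr h5.ne'
      · exact h5
    have hq' : 0 < q := by
      rcases c2 with h5 | h5
      · exact h5
      · exact absurd zr h5.ne'
    rw [zr] at e h1
    exact M_zeroHP h hT hP hx xv xa xb xc hp' hq' (by linarith) e h0 hu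
  · by_cases zp : p = 0
    · have hq' : 0 < q := by
        rcases c1 with h5 | h5
        · exact absurd zp h5.ne'
        · exact h5
      rw [zp] at e h1
      exact M_zeroHP (sk_rot h) hT hP hx xv xb xc xa hq' (lt_of_le_of_ne hr (Ne.symm zr)) (by linarith)
        (by rw [e]; abel) (by rw [q2]; exact h0) (by rw [q2, r2]; exact hu)
    · by_cases zq : q = 0
      · rw [zq] at e h1
        exact M_zeroHP (sk_rot (sk_rot h)) hT hP hx xv xc xa xb (lt_of_le_of_ne hr (Ne.symm zr))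
          (lt_of_le_of_ne hp (Ne.symm zp)) (by linarith)
          (by rw [e]; abel) (by rw [q3]; exact h0) (by rw [q3, r3]; exact hu)
      · exact M_posHP h hT hP hx xv xa xb xc (lt_of_le_of_ne hp (Ne.symm zp)) (lt_of_le_of_ne hq (Ne.symm zq))
          (lt_of_le_of_ne hr (Ne.symm zr)) h1 e h0 hu

theorem sk_of {S : Finset (Ed 3)} (h1 : affineSpan ℝ (S : Set (Ed 3)) = ⊤)
    (h2 : ∀ p ∈ S, p ∉ convexHull ℝ ((S.erase p : Finset (Ed 3)) : Set (Ed 3))) {v : Ed 3} (hv : v ∈ S)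
    (h3 : (S.filter fun u => u ≠ v ∧ IsExposed ℝ (convexHull ℝ (S : Set (Ed 3))) (segment ℝ v u)).card = 3) :
    ∃ a b c, Sk S v a b c := by
  have hS := Z2_vert h2
  have hnb : nb S v = S.filter fun u => u ≠ v ∧ IsExposed ℝ (convexHull ℝ (S : Set (Ed 3))) (segment ℝ v u) := by
    unfold nb
    refine Finset.filter_congr fun u hu => ?_
    exact adj_edge hS hv hu
  rw [← hnb] at h3
  obtain ⟨a, b, c, hab, hac, hbc, he⟩ := Finset.card_eq_three.1 h3
  have hfull : Full S := by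
    unfold Full
    rw [← direction_affineSpan, h1, AffineSubspace.direction_top]
  exact ⟨a, b, c, hS, hfull, hv, he, hab, hac, hbc⟩

end Pool.Agent.LibCor47
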