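import Pool.Agent.LibTet23.CA

/-!
Cor47: replacing one set of a Hamiltonian path by two (after LibTet23.C9, CA).
-/

set_option autoImplicit false

namespace Pool.Agent.LibCor47

open Finset Pool.Agent.LibPol19 Pool.Agent.LibTet88 Pool.Agent.LibTet23
open scoped Classical

theorem path_two {α : Type*} {T N : Finset (Finset α)} (hT : HP T) {t₀ : Finset α} (h0 : t₀ ∈ T)
    (hN : N.card = 2)
    (hd : Disjoint N T) (hc : ∀ n ∈ N, ∀ n' ∈ N, n ≠ n' → (n ∩ n').card = 3) (φ : Finset α → Finset α)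
    (h1 : ∀ u ∈ T, u ≠ t₀ → (u ∩ t₀).card = 3 → φ u ∈ N ∧ (u ∩ φ u).card = 3)
    (h2 : ∀ u ∈ T, ∀ u' ∈ T, u ≠ t₀ → u' ≠ t₀ → (u ∩ t₀).card = 3 → (u' ∩ t₀).card = 3 → u ≠ u' → φ u ≠ φ u') :
    HP (T.erase t₀ ∪ N) := by
  obtain ⟨f, hf1, hf2, hf3⟩ := hT
  have himg : (range T.card).image f = T := by
    refine Finset.eq_of_subset_of_card_le ?_ ?_
    · intro x hx
      obtain ⟨i, hi, rfl⟩ := Finset.mem_image.1 hx
      exact hf1 i (Finset.mem_range.1 hi)
    · rw [Finset.card_image_of_injOn, Finset.card_range]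
      intro i hi i' hi' h
      exact hf2 i (Finset.mem_range.1 hi) i' (Finset.mem_range.1 hi') h
  obtain ⟨j, hj, rfl⟩ : ∃ j, j < T.card ∧ f j = t₀ := by
    rw [← himg, Finset.mem_image] at h0
    obtain ⟨j, hj, h⟩ := h0
    exact ⟨j, Finset.mem_range.1 hj, h⟩
  set n := T.card with hn
  have hfj : ∀ i < n, i ≠ j → f i ≠ f j := fun i hi hij h => hij (hf2 i hi j hj h)
  -- left and right neighbours
  have hleft : 0 < j → φ (f (j - 1)) ∈ N ∧ (f (j - 1) ∩ φ (f (j - 1))).card = 3 := by
    intro h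
    refine h1 _ (hf1 _ (by omega)) (hfj _ (by omega) (by omega)) ?_
    have h3 := hf3 (j - 1) (by omega)
    rwa [show j - 1 + 1 = j by omega] at h3
  have hright : j + 1 < n → φ (f (j + 1)) ∈ N ∧ (f (j + 1) ∩ φ (f (j + 1))).card = 3 := by
    intro h
    refine h1 _ (hf1 _ h) (hfj _ h (by omega)) ?_
    rw [Finset.inter_comm]
    exact hf3 j h
  have hboth : 0 < j → j + 1 < n → φ (f (j - 1)) ≠ φ (f (j + 1)) := by
    intro h h'
    refine h2 _ (hf1 _ (by omega)) _ (hf1 _ h') (hfj _ (by omega) (by omega)) (hfj _ h' (by omega)) ?_ ?_ ?_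
    · have h3 := hf3 (j - 1) (by omega)
      rwa [show j - 1 + 1 = j by omega] at h3
    · rw [Finset.inter_comm]
      exact hf3 j h'
    · intro h4
      have := hf2 (j - 1) (by omega) (j + 1) h' h4
      omega
  have hother : ∀ x, ∃ y ∈ N, y ≠ x := by
    intro x
    by_contra hcon
    push Not at hcon
    have h3 : N ⊆ {x} := fun y hy => Finset.mem_singleton.2 (hcon y hy)
    have h4 := Finset.card_le_card h3
    rw [Finset.card_singleton, hN] at h4
    omega
  obtain ⟨a, haN, c, hcN, hac, ha, hcc⟩ : ∃ a ∈ N, ∃ c ∈ N, a ≠ c ∧ (0 < j → (f (j - 1) ∩ a).card = 3) ∧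
      (j + 1 < n → (f (j + 1) ∩ c).card = 3) := by
    by_cases hl : 0 < j
    · by_cases hr : j + 1 < n
      · exact ⟨_, (hleft hl).1, _, (hright hr).1, hboth hl hr, fun _ => (hleft hl).2, fun _ => (hright hr).2⟩
      · obtain ⟨y, hy, hyx⟩ := hother (φ (f (j - 1)))
        exact ⟨_, (hleft hl).1, y, hy, hyx.symm, fun _ => (hleft hl).2, fun h => absurd h hr⟩
    · by_cases hr : j + 1 < n
      · obtain ⟨y, hy, hyx⟩ := hother (φ (f (j + 1)))
        exact ⟨y, hy, _, (hright hr).1, hyx, fun h => absurd h hl, fun _ => (hright hr).2⟩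
      · obtain ⟨x, hx, -⟩ := hother ∅
        obtain ⟨y, hy, hyx⟩ := hother x
        exact ⟨x, hx, y, hy, hyx.symm, fun h => absurd h hl, fun h => absurd h hr⟩
  -- the new path
  set g : ℕ → Finset α := fun i =>
    if i < j then f i else if i = j then a else if i = j + 1 then c else f (i - 1)
    with hg
  have g1 : ∀ i, i < j → g i = f i := fun i hi => if_pos hi
  have g2 : g j = a := by
    show (if j < j then f j else if j = j then a else _) = a
    rw [if_neg (lt_irrefl j), if_pos rfl]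
  have g3 : g (j + 1) = c := by
    show (if j + 1 < j then _ else if j + 1 = j then _ else if j + 1 = j + 1 then c else _) = c
    rw [if_neg (by omega), if_neg (by omega), if_pos rfl]
  have g5 : ∀ i, j + 2 ≤ i → g i = f (i - 1) := by
    intro i hi
    show (if i < j then _ else if i = j then _ else if i = j + 1 then _ else f (i - 1)) = f (i - 1)
    rw [if_neg (by omega), if_neg (by omega), if_neg (by omega)]
  have hNT : ∀ x ∈ N, x ∉ T := fun x hx hx' => Finset.disjoint_left.1 hd hx hx'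
  have hcard : (T.erase (f j) ∪ N).card = n + 1 := by
    rw [Finset.card_union_of_disjoint, Finset.card_erase_of_mem (hf1 j hj), hN, ← hn]
    · omega
    · rw [Finset.disjoint_left]
      intro x hx hx'
      exact hNT x hx' (Finset.mem_of_mem_erase hx)
  -- classification
  have hcl : ∀ i < n + 1, (∃ k, k < n ∧ k ≠ j ∧ g i = f k ∧ ((i < j ∧ k = i) ∨ (j + 2 ≤ i ∧ k + 1 = i))) ∨
      (i = j ∧ g i = a) ∨ (i = j + 1 ∧ g i = c) := by
    intro i hi
    rcases lt_or_ge i j with h | h
    · exact Or.inl ⟨i, by omega, by omega, g1 i h, Or.inl ⟨h, rfl⟩⟩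
    · rcases Nat.lt_or_ge i (j + 2) with h' | h'
      · have h3 : i = j ∨ i = j + 1 := by omega
        rcases h3 with rfl | rfl
        · exact Or.inr (Or.inl ⟨rfl, g2⟩)
        · exact Or.inr (Or.inr ⟨rfl, g3⟩)
      · exact Or.inl ⟨i - 1, by omega, by omega, g5 i h', Or.inr ⟨h', by omega⟩⟩
  refine ⟨g, ?_, ?_, ?_⟩
  · intro i hi
    rw [hcard] at hi
    rw [Finset.mem_union]
    rcases hcl i hi with ⟨k, hk, hkj, hgk, _⟩ | ⟨_, h⟩ | ⟨_, h⟩
    · left
      rw [hgk]
      exact Finset.mem_erase.2 ⟨hfj k hk hkj, hf1 k hk⟩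
    · right
      rw [h]
      exact haN
    · right
      rw [h]
      exact hcN
  · intro i hi i' hi' h
    rw [hcard] at hi hi'
    rcases hcl i hi with ⟨k, hk, hkj, hgk, hik⟩ | ⟨e1, e2⟩ | ⟨e1, e2⟩
    · rcases hcl i' hi' with ⟨k', hk', hkj', hgk', hik'⟩ | ⟨e1', e2'⟩ | ⟨e1', e2'⟩
      · rw [hgk, hgk'] at h
        have := hf2 k hk k' hk' h
        omega
      · exact absurd (by rw [← e2', ← h, hgk]; exact hf1 k hk) (hNT a haN)
      · exact absurd (by rw [← e2', ← h, hgk]; exact hf1 k hk) (hNT c hcN)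
    · rcases hcl i' hi' with ⟨k', hk', hkj', hgk', hik'⟩ | ⟨e1', e2'⟩ | ⟨e1', e2'⟩
      · exact absurd (by rw [← e2, h, hgk']; exact hf1 k' hk') (hNT a haN)
      · omega
      · exact absurd (by rw [← e2, h, e2']) hac
    · rcases hcl i' hi' with ⟨k', hk', hkj', hgk', hik'⟩ | ⟨e1', e2'⟩ | ⟨e1', e2'⟩
      · exact absurd (by rw [← e2, h, hgk']; exact hf1 k' hk') (hNT c hcN)
      · exact absurd (by rw [← e2', ← h, e2]) hac
      · omega
  · intro i hi
    rw [hcard] at hi
    rcases Nat.lt_or_ge (i + 1) j with h | h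
    · rw [g1 i (by omega), g1 (i + 1) h]
      exact hf3 i (by omega)
    · rcases Nat.lt_or_ge i j with h' | h'
      · have h3 : i + 1 = j := by omega
        rw [g1 i h', h3, g2]
        have h4 := ha (by omega)
        rwa [show j - 1 = i by omega] at h4
      · rcases Nat.lt_or_ge i (j + 2) with h5 | h5
        · have h3 : i = j ∨ i = j + 1 := by omega
          rcases h3 with rfl | rfl
          · rw [g2, g3]
            exact hc a haN c hcN hac
          · rw [g3, g5 (j + 1 + 1) (by omega), Finset.inter_comm]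
            have h4 := hcc (by omega)
            rwa [show j + 1 + 1 - 1 = j + 1 by omega]
        · rw [g5 i h5, g5 (i + 1) (by omega), show i + 1 - 1 = i - 1 + 1 by omega]
          exact hf3 (i - 1) (by omega)

end Pool.Agent.LibCor47
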