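import Pool.Agent.LibCor47.M

/-!
Cor47: elimination of vertices with at most three neighbours; polytopes whose graph is a partial 3-tree (treewidth at most
three).
-/

set_option autoImplicit false

namespace Pool.Agent.LibCor47

open Finset Pool.Agent.LibPol19 Pool.Agent.LibTet88 Pool.Agent.LibTet23
open scoped Classical

/-- an edge of the hull of `V - v` with an endpoint not adjacent to `v` is an edge of the hull of `V` -/
theorem adj_erase {V : Finset (Ed 3)} (hV : IsVert V) {v x y : Ed 3} (hv : v ∈ V) (hx : x ∈ V) (xv : x ≠ v)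
    (hn : ¬ Adj V x v) (h : Adj (V.erase v) x y) : Adj V x y := by
  obtain ⟨hxy, -, hsub, ℓ, c, hℓ⟩ := h
  have hxE : x ∈ V.erase v := hsub (by simp)
  have hyE : y ∈ V.erase v := hsub (by simp)
  have hyV : y ∈ V := Finset.mem_of_mem_erase hyE
  have hyv : y ≠ v := (Finset.mem_erase.1 hyE).1
  have hxc : ℓ x = c := (hℓ x hxE).2.2 (by simp)
  have hyc : ℓ y = c := (hℓ y hyE).2.2 (by simp)
  obtain ⟨k, hk0, hk⟩ := cone_hl hV hx (mem_hl hv)
  have hnb : ∀ u ∈ nb V x, u ∈ V.erase v := by
    intro u hu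
    rw [mem_nb] at hu
    refine Finset.mem_erase.2 ⟨?_, hu.1⟩
    intro h1
    rw [h1] at hu
    exact hn hu.2
  have h1 : ℓ v - ℓ x = ∑ u ∈ nb V x, k u * (ℓ u - ℓ x) := by
    rw [← map_sub, hk, map_sum]
    refine Finset.sum_congr rfl fun u _ => ?_
    rw [map_smul, map_sub, smul_eq_mul]
  have h2 : ∀ u ∈ nb V x, k u * (ℓ u - ℓ x) ≤ 0 := by
    intro u hu
    refine mul_nonpos_of_nonneg_of_nonpos (hk0 u) ?_
    have h3 := (hℓ u (hnb u hu)).1
    linarith
  have h3 : ℓ v ≤ c := by
    have h4 := Finset.sum_nonpos h2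
    linarith
  by_cases h4 : ℓ v = c
  · exfalso
    have h5 : ∑ u ∈ nb V x, k u * (ℓ u - ℓ x) = 0 := by linarith
    have h6 := (Finset.sum_eq_zero_iff_of_nonpos h2).1 h5
    have h7 : ∀ u ∈ nb V x, u ≠ y → k u • (u - x) = 0 := by
      intro u hu huy
      have hux : u ≠ x := by
        intro h8
        rw [h8, mem_nb] at hu
        exact hu.2.1 rfl
      have h8 : ℓ u ≠ c := by
        intro h9
        have h10 := (hℓ u (hnb u hu)).2.1 h9
        rw [Finset.mem_insert, Finset.mem_singleton] at h10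
        rcases h10 with h10 | h10
        · exact hux h10
        · exact huy h10
      rcases mul_eq_zero.1 (h6 u hu) with h9 | h9
      · rw [h9, zero_smul]
      · exact absurd (by linarith) h8
    have h8 : v - x = (if y ∈ nb V x then k y • (y - x) else 0) := by
      rw [hk, ← Finset.sum_ite_eq' (nb V x) y fun u => k u • (u - x)]
      refine Finset.sum_congr rfl fun u hu => ?_
      by_cases huy : u = y
      · rw [if_pos huy]
      · rw [if_neg huy, h7 u hu huy]
    by_cases hy : y ∈ nb V x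
    · rw [if_pos hy] at h8
      have hky : 0 < k y := by
        refine lt_of_le_of_ne (hk0 y) fun h9 => ?_
        rw [← h9, zero_smul] at h8
        exact xv (sub_eq_zero.1 h8).symm
      rcases le_total 1 (k y) with h9 | h9
      · refine g09_btw hV hx hyV hv hxy hyv.symm ?_
        refine ⟨(k y)⁻¹, ⟨inv_nonneg.2 hky.le, inv_le_one_of_one_le₀ h9⟩, ?_⟩
        rw [AffineMap.lineMap_apply_module', h8, smul_smul, inv_mul_cancel₀ hky.ne', one_smul]
        abel
      · refine g09_btw hV hx hv hyV xv hyv ?_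
        refine ⟨k y, ⟨hky.le, h9⟩, ?_⟩
        rw [AffineMap.lineMap_apply_module', ← h8]
        abel
    · rw [if_neg hy] at h8
      exact xv (sub_eq_zero.1 h8).symm
  · refine ⟨hxy, ⟨x, by simp⟩, ?_, ℓ, c, ?_⟩
    · intro z hz
      exact Finset.mem_of_mem_erase (hsub hz)
    · intro z hz
      by_cases hzv : z = v
      · rw [hzv]
        refine ⟨h3, iff_of_false h4 ?_⟩
        rw [Finset.mem_insert, Finset.mem_singleton]
        rintro (h9 | h9)
        · exact xv h9.symm
        · exact hyv h9.symm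
      · exact hℓ z (Finset.mem_erase.2 ⟨hzv, hz⟩)

private theorem W_indep {V : Finset (Ed 3)} (hf : Full V) (hc : V.card = 4) :
    AffineIndependent ℝ (fun x : V => (x.1 : Ed 3)) := by
  rw [affineIndependent_iff_le_finrank_vectorSpan ℝ _ (n := 3) (by rw [Fintype.card_coe]; exact hc)]
  have h6 : Set.range (fun x : V => (x.1 : Ed 3)) = (V : Set (Ed 3)) := Subtype.range_coe
  have h7 : vectorSpan ℝ (V : Set (Ed 3)) = ⊤ := hf
  rw [h6, h7, finrank_top, finrank_euclideanSpace_fin]

private theorem W_card {V : Finset (Ed 3)} (hf : Full V) : 4 ≤ V.card := by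
  by_contra hcon
  have h7 : vectorSpan ℝ (V : Set (Ed 3)) = ⊤ := hf
  have h6 : Set.range (fun x : V => (x.1 : Ed 3)) = (V : Set (Ed 3)) := Subtype.range_coe
  have hne : V.Nonempty := by
    rw [Finset.nonempty_iff_ne_empty]
    intro h
    rw [h, Finset.coe_empty, vectorSpan_empty] at h7
    have h8 := congrArg (fun S : Submodule ℝ (Ed 3) => Module.finrank ℝ S) h7
    simp only [finrank_bot, finrank_top, finrank_euclideanSpace_fin] at h8
    omega
  obtain ⟨n, hn⟩ := Nat.exists_eq_succ_of_ne_zero (Finset.card_pos.2 hne).ne'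
  have h1 := finrank_vectorSpan_range_le ℝ (fun x : V => (x : Ed 3)) (n := n)
    (by rw [Fintype.card_coe, hn])
  rw [h6, h7, finrank_top, finrank_euclideanSpace_fin] at h1
  omega

/-- removing a vertex with three neighbours keeps the dimension -/
theorem full_erase {V : Finset (Ed 3)} {v a b c : Ed 3} (h : Sk V v a b c) (h5 : 5 ≤ V.card) :
    Full (V.erase v) := by
  obtain ⟨haV, hbV, hcV, av, bv, cv⟩ := sk_mem h
  have h1 : ∃ x ∈ V, x ∉ ({v, a, b, c} : Finset (Ed 3)) := by
    by_contra hcon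
    push Not at hcon
    have h2 := (Finset.card_le_card hcon).trans (Finset.card_le_four)
    omega
  obtain ⟨x, hx, hxn⟩ := h1
  simp only [Finset.mem_insert, Finset.mem_singleton, not_or] at hxn
  obtain ⟨xv, xa, xb, xc⟩ := hxn
  obtain ⟨m, k, ma, mb, mc, mv, mz⟩ := sk_cap h
  have hsub : ({a, b, c} : Finset (Ed 3)) ⊆ V := by
    intro z hz
    rw [Finset.mem_insert, Finset.mem_insert, Finset.mem_singleton] at hz
    rcases hz with rfl | rfl | rfl <;> assumption
  have hcard : ({a, b, c} : Finset (Ed 3)).card = 3 := by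
    rw [Finset.card_insert_of_notMem, Finset.card_pair h.bc]
    rw [Finset.mem_insert, Finset.mem_singleton, not_or]
    exact ⟨h.ab, h.ac⟩
  obtain ⟨hc4, hind⟩ := indep4 h.vert hsub hcard (w := x) (ℓ := m) (c := k) (by
    intro y hy
    rw [Finset.mem_insert, Finset.mem_insert, Finset.mem_singleton] at hy
    rcases hy with rfl | rfl | rfl <;> assumption) (mz x hx xv xa xb xc).ne
  have hfr := hind.finrank_vectorSpan (n := 3) (by rw [Fintype.card_coe]; exact hc4)
  have h6 : Set.range (fun y : (insert x ({a, b, c} : Finset (Ed 3)) : Finset (Ed 3)) => (y.1 : Ed 3)) =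
      ((insert x ({a, b, c} : Finset (Ed 3)) : Finset (Ed 3)) : Set (Ed 3)) := Subtype.range_coe
  rw [h6] at hfr
  have hE : insert x ({a, b, c} : Finset (Ed 3)) ⊆ V.erase v := by
    intro z hz
    rw [Finset.mem_insert, Finset.mem_insert, Finset.mem_insert, Finset.mem_singleton] at hz
    rw [Finset.mem_erase]
    rcases hz with rfl | rfl | rfl | rfl
    · exact ⟨xv, hx⟩
    · exact ⟨av, haV⟩
    · exact ⟨bv, hbV⟩
    · exact ⟨cv, hcV⟩
  have h7 : vectorSpan ℝ ((insert x ({a, b, c} : Finset (Ed 3)) : Finset (Ed 3)) : Set (Ed 3)) ≤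
      vectorSpan ℝ ((V.erase v : Finset (Ed 3)) : Set (Ed 3)) := vectorSpan_mono ℝ (by exact_mod_cast hE)
  have h8 : vectorSpan ℝ ((insert x ({a, b, c} : Finset (Ed 3)) : Finset (Ed 3)) : Set (Ed 3)) = ⊤ := by
    apply Submodule.eq_top_of_finrank_eq
    rw [hfr, finrank_euclideanSpace_fin]
  unfold Full
  rw [h8, top_le_iff] at h7
  exact h7

/-- elimination of the vertices outside `W`, with at most three later neighbours -/
structure PT (V W : Finset (Ed 3)) (H : Ed 3 → Ed 3 → Prop) (f : Ed 3 → ℕ) : Prop where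
  inj : ∀ x ∈ V, ∀ y ∈ V, f x = f y → x = y
  adj : ∀ x ∈ V, ∀ y ∈ V, Adj V x y → H x y
  out : ∀ v ∈ V, v ∉ W → (∀ w ∈ W, f v < f w) ∧ (V.filter fun u => H v u ∧ f v < f u).card ≤ 3 ∧
    ∀ x ∈ V, ∀ y ∈ V, H v x → H v y → f v < f x → f v < f y → x ≠ y → H x y

private theorem W_four {V : Finset (Ed 3)} (hf : Full V) (h5 : V.card = 4) : ∃ T, TetD V T ∧ HP T := by
  refine ⟨{V}, ⟨?_, ?_, ?_⟩, ?_⟩
  · intro t ht
    rw [Finset.mem_singleton] at ht
    subst ht
    exact ⟨Finset.Subset.refl _, h5, W_indep hf h5⟩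
  · intro y hy
    exact Set.mem_iUnion₂.2 ⟨V, Finset.mem_singleton_self V, hy⟩
  · intro t ht u hu
    rw [Finset.mem_singleton] at ht hu
    subst ht
    subst hu
    rw [Set.inter_self, Finset.inter_self]
  · refine ⟨fun _ => V, ?_, ?_, ?_⟩
    · intro i _
      exact Finset.mem_singleton_self V
    · intro i hi j hj _
      rw [Finset.card_singleton] at hi hj
      omega
    · intro i hi
      rw [Finset.card_singleton] at hi
      omega

private theorem W_ind (W : Finset (Ed 3)) (hW : W.card ≤ 4 ∨ ∃ T, TetD W T ∧ HP T) (n : ℕ) :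
    ∀ V : Finset (Ed 3), V.card = n → W ⊆ V → IsVert V → Full V →
    ∀ (H : Ed 3 → Ed 3 → Prop) (f : Ed 3 → ℕ), PT V W H f → ∃ T, TetD V T ∧ HP T := by
  induction n with
  | zero =>
    intro V hc _ _ hf
    have := W_card hf
    omega
  | succ n ih =>
    intro V hc hWV hV hf H f hP
    have h4 := W_card hf
    by_cases h5 : V.card = 4
    · exact W_four hf h5
    · have h6 : 5 ≤ V.card := by omega
      by_cases hVW : V = W
      · rcases hW with h7 | h7
        · rw [← hVW] at h7
          omega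
        · rw [hVW]
          exact h7
      have hne : (V \ W).Nonempty := by
        rw [Finset.nonempty_iff_ne_empty]
        intro h7
        rw [Finset.sdiff_eq_empty_iff_subset] at h7
        exact hVW (Finset.Subset.antisymm h7 hWV)
      obtain ⟨v, hvW, hmin⟩ := Finset.exists_min_image (V \ W) f hne
      rw [Finset.mem_sdiff] at hvW
      obtain ⟨hv, hvW⟩ := hvW
      obtain ⟨o1, o2, o3⟩ := hP.out v hv hvW
      have hlt : ∀ u ∈ V, u ≠ v → f v < f u := by
        intro u hu huv
        by_cases huW : u ∈ W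
        · exact o1 u huW
        · exact lt_of_le_of_ne (hmin u (Finset.mem_sdiff.2 ⟨hu, huW⟩)) fun h7 => huv (hP.inj v hv u hu h7).symm
      have hnb : nb V v ⊆ V.filter fun u => H v u ∧ f v < f u := by
        intro u hu
        rw [mem_nb] at hu
        rw [Finset.mem_filter]
        exact ⟨hu.1, hP.adj v hv u hu.1 hu.2, hlt u hu.1 hu.2.1.symm⟩
      have hle : (nb V v).card ≤ 3 := (Finset.card_le_card hnb).trans o2
      have hge : 3 ≤ (nb V v).card := by
        have h7 := dm_le_card hV (face_self ⟨v, hv⟩) hv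
        have h8 : nb V v ∩ V = nb V v := Finset.inter_eq_left.2 (fun u hu => (mem_nb.1 hu).1)
        have h9 : dm V = 3 := by
          unfold dm
          have h10 : vectorSpan ℝ (V : Set (Ed 3)) = ⊤ := hf
          rw [h10, finrank_top, finrank_euclideanSpace_fin]
        rw [h8, h9] at h7
        exact h7
      obtain ⟨a, b, c, hab, hac, hbc, he⟩ := Finset.card_eq_three.1 (le_antisymm hle hge)
      have hS : Sk V v a b c := ⟨hV, hf, hv, he, hab, hac, hbc⟩
      have hP' : PT (V.erase v) W H f := by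
        refine ⟨?_, ?_, ?_⟩
        · intro x hx y hy
          exact hP.inj x (Finset.mem_of_mem_erase hx) y (Finset.mem_of_mem_erase hy)
        · intro x hx y hy hxy
          rw [Finset.mem_erase] at hx hy
          by_cases h7 : Adj V x v
          · by_cases h8 : Adj V y v
            · exact o3 x hx.2 y hy.2 (hP.adj v hv x hx.2 (adj_symm h7))
                (hP.adj v hv y hy.2 (adj_symm h8)) (hlt x hx.2 hx.1) (hlt y hy.2 hy.1) hxy.1
            · exact hP.adj x hx.2 y hy.2 (adj_symm (adj_erase hV hv hy.2 hy.1 h8 (adj_symm hxy)))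
          · exact hP.adj x hx.2 y hy.2 (adj_erase hV hv hx.2 hx.1 h7 hxy)
        · intro u hu huW
          obtain ⟨g1, g2, g3⟩ := hP.out u (Finset.mem_of_mem_erase hu) huW
          refine ⟨g1, (Finset.card_le_card ?_).trans g2, ?_⟩
          · intro z hz
            rw [Finset.mem_filter] at hz ⊢
            exact ⟨Finset.mem_of_mem_erase hz.1, hz.2⟩
          · intro x hx y hy
            exact g3 x (Finset.mem_of_mem_erase hx) y (Finset.mem_of_mem_erase hy)
      have hWE : W ⊆ V.erase v := by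
        intro w hw
        refine Finset.mem_erase.2 ⟨?_, hWV hw⟩
        intro h7
        exact hvW (h7 ▸ hw)
      obtain ⟨T, hT, hH⟩ := ih (V.erase v) (by rw [Finset.card_erase_of_mem hv, hc]; rfl) hWE
        (vert_sub hV (Finset.erase_subset v V)) (full_erase hS h6) H f hP'
      exact corner hS hT hH

theorem elim_three {V W : Finset (Ed 3)} (hV : IsVert V) (hf : Full V) (hWV : W ⊆ V)
    (hW : W.card ≤ 4 ∨ ∃ T, TetD W T ∧ HP T) {H : Ed 3 → Ed 3 → Prop} {f : Ed 3 → ℕ}
    (hP : PT V W H f) : ∃ T, TetD V T ∧ HP T := W_ind W hW V.card V rfl hWV hV hf H f hP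

theorem nat_of {S : Finset (Ed 3)} (h1 : affineSpan ℝ (S : Set (Ed 3)) = ⊤)
    (h2 : ∀ p ∈ S, p ∉ convexHull ℝ ((S.erase p : Finset (Ed 3)) : Set (Ed 3))) :
    IsVert S ∧ Full S ∧ ∀ x ∈ S, ∀ y ∈ S, Adj S x y →
      y ≠ x ∧ IsExposed ℝ (convexHull ℝ (S : Set (Ed 3))) (segment ℝ x y) := by
  have hS := Z2_vert h2
  refine ⟨hS, ?_, fun x hx y hy h => (adj_edge hS hx hy).1 h⟩
  unfold Full
  rw [← direction_affineSpan, h1, AffineSubspace.direction_top]

end Pool.Agent.LibCor47
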